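import Pool.Agent.H604R2.LEC.AT

/-!
# The Alon-Tarsi method for edge colourings of regular graphs given by incidences
-/

set_option autoImplicit false
set_option linter.unusedSectionVars false

namespace Pool.Agent.H604R2.LEC2

open MvPolynomial Finset Pool.Agent.H604R2.LEC

section fin

variable {V E : Type} [Fintype V] [DecidableEq V] [Fintype E] [DecidableEq E] {k : ℕ}
variable (inc : V → Fin k → E)

/-- The line graph polynomial. -/
noncomputable def PG (R : Type) [CommRing R] : MvPolynomial E R :=
  ∏ v : V, (Matrix.vandermonde (fun j : Fin k => (X (inc v j) : MvPolynomial E R))).det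

theorem PG_map {R S : Type} [CommRing R] [CommRing S] (f : R →+* S) :
    map f (PG inc R) = PG inc S := by
  unfold PG
  rw [map_prod]
  apply Finset.prod_congr rfl
  intro v _
  rw [Matrix.det_vandermonde, Matrix.det_vandermonde, map_prod]
  apply Finset.prod_congr rfl
  intro i _
  rw [map_prod]
  apply Finset.prod_congr rfl
  intro j _
  rw [map_sub, map_X, map_X]

theorem eval_PG {R : Type} [CommRing R] (φ : E → R) :
    eval φ (PG inc R) = ∏ v : V, (Matrix.vandermonde (fun j : Fin k => φ (inc v j))).det := by
  unfold PG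
  rw [map_prod]
  apply Finset.prod_congr rfl
  intro v _
  rw [Matrix.det_vandermonde, Matrix.det_vandermonde, map_prod]
  apply Finset.prod_congr rfl
  intro i _
  rw [map_prod]
  apply Finset.prod_congr rfl
  intro j _
  rw [map_sub, eval_X, eval_X]

/-- Every edge has exactly two incidences. -/
def TwoInc : Prop := ∀ e, (univ.filter fun s : V × Fin k => inc s.1 s.2 = e).card = 2

variable {inc}

theorem prod_inc (h2 : TwoInc inc) {M : Type} [CommMonoid M] (g : E → M) :
    ∏ v, ∏ j, g (inc v j) = ∏ e, g e ^ 2 := by
  rw [← Fintype.prod_prod_type' (fun v j => g (inc v j))]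
  rw [← Finset.prod_fiberwise_of_maps_to (s := univ) (t := univ)
    (g := fun s : V × Fin k => inc s.1 s.2) (fun _ _ => Finset.mem_univ _)]
  apply Finset.prod_congr rfl
  intro e _
  rw [← h2 e, ← Finset.prod_const]
  apply Finset.prod_congr rfl
  intro s hs
  rw [(Finset.mem_filter.1 hs).2]

theorem card_E (h2 : TwoInc inc) : Fintype.card V * k = 2 * Fintype.card E := by
  have h := prod_inc h2 (fun _ => (2 : ℕ))
  simp only [Finset.prod_const, Finset.card_univ, Fintype.card_fin] at h
  rw [← pow_mul, ← pow_mul] at h
  have h2 := Nat.pow_right_injective (le_refl 2) h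
  rw [mul_comm, h2]

theorem totalDegree_PG (h2 : TwoInc inc) {R : Type} [CommRing R] (hk : 0 < k) :
    (PG inc R).totalDegree ≤ Fintype.card E * (k - 1) := by
  have h1 : ∀ v : V, ((Matrix.vandermonde (fun j : Fin k => (X (inc v j) :
      MvPolynomial E R))).det).totalDegree ≤ Fintype.card (Ed k) := by
    intro v
    rw [Matrix.det_vandermonde]
    rw [← prod_Ed (fun i j => (X (inc v j) : MvPolynomial E R) - X (inc v i))]
    refine (totalDegree_finsetProd _ _).trans ?_
    rw [← Finset.card_univ, Finset.card_eq_sum_ones]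
    apply Finset.sum_le_sum
    intro e _
    refine (totalDegree_sub _ _).trans (max_le ?_ ?_)
    · exact (totalDegree_monomial_le _ _).trans (by simp)
    · exact (totalDegree_monomial_le _ _).trans (by simp)
  have h3 : (PG inc R).totalDegree ≤ Fintype.card V * Fintype.card (Ed k) := by
    unfold PG
    refine (totalDegree_finsetProd _ _).trans ?_
    refine (Finset.sum_le_sum (fun v _ => h1 v)).trans ?_
    simp
  obtain ⟨k', rfl⟩ : ∃ k', k = k' + 1 := ⟨k - 1, by omega⟩
  refine h3.trans (le_of_eq ?_)
  have h4 := card_Ed k'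
  have h5 := card_E h2
  rw [Nat.add_sub_cancel]
  have h6 : 2 * (Fintype.card V * Fintype.card (Ed (k' + 1))) =
      2 * (Fintype.card E * k') := by
    calc 2 * (Fintype.card V * Fintype.card (Ed (k' + 1))) =
        Fintype.card V * (2 * Fintype.card (Ed (k' + 1))) := by ring
      _ = Fintype.card V * ((k' + 1) * k') := by rw [h4]
      _ = (Fintype.card V * (k' + 1)) * k' := by ring
      _ = (2 * Fintype.card E) * k' := by rw [h5]
      _ = _ := by ring
  omega

theorem eps_eq_zero (f : Fin k → Fin k) (h : ¬ Function.Injective f) : eps f = 0 := by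
  unfold eps
  unfold Function.Injective at h
  push Not at h
  obtain ⟨i, j, hij, hne⟩ := h
  apply Matrix.det_zero_of_column_eq hne
  intro a
  rw [Matrix.of_apply, Matrix.of_apply, hij]

/-- For a proper colouring the product of the weights does not depend on the colouring. -/
theorem prod_weights (h2 : TwoInc inc) {F : Type} [Field F] (l : Fin k → F) (c : E → Fin k)
    (hc : ∀ v, Function.Injective (fun j => c (inc v j))) :
    ∏ e, l (c e) = ∏ a, l a ^ (Fintype.card V / 2) := by
  rw [← Finset.prod_fiberwise_of_maps_to (s := univ) (t := univ)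
    (g := fun e : E => c e) (fun _ _ => Finset.mem_univ _)]
  apply Finset.prod_congr rfl
  intro a _
  have h3 : ∏ e ∈ univ.filter (fun e => c e = a), l (c e) =
      ∏ e ∈ univ.filter (fun e => c e = a), l a := by
    apply Finset.prod_congr rfl
    intro e he
    rw [(Finset.mem_filter.1 he).2]
  rw [h3, Finset.prod_const]
  congr 1
  have h4 := prod_inc h2 (fun e => if c e = a then (2 : ℕ) else 1)
  have h5 : ∀ v : V, ∏ j, (if c (inc v j) = a then (2 : ℕ) else 1) = 2 := by
    intro v
    have hb : Function.Bijective (fun j => c (inc v j)) := Finite.injective_iff_bijective.1 (hc v)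
    obtain ⟨j0, hj0⟩ := hb.2 a
    rw [Finset.prod_eq_single j0]
    · rw [if_pos hj0]
    · intro j _ hj
      rw [if_neg]
      intro h
      exact hj (hc v (h.trans hj0.symm))
    · intro h
      exact absurd (Finset.mem_univ _) h
  simp only [h5] at h4
  rw [Finset.prod_const, Finset.card_univ] at h4
  have h6 : ∏ e, (if c e = a then (2 : ℕ) else 1) ^ 2 =
      2 ^ (2 * (univ.filter (fun e => c e = a)).card) := by
    rw [Finset.prod_pow, Finset.prod_ite, Finset.prod_const, Finset.prod_const_one, mul_one,
      ← pow_mul, mul_comm]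
  rw [h6] at h4
  have h7 := Nat.pow_right_injective (le_refl 2) h4
  omega

/-- The Alon-Tarsi method. -/
theorem at_fin (hk : 0 < k) (h2 : TwoInc inc)
    (hF : ∑ c : E → Fin k, ∏ v, eps (fun j => c (inc v j)) ≠ 0)
    (L : E → Finset ℕ) (hL : ∀ e, k ≤ (L e).card) :
    ∃ f : E → ℕ, (∀ e, f e ∈ L e) ∧ ∀ v, Function.Injective (fun j => f (inc v j)) := by
  set s : Fin k → ℚ := fun a => ((a : ℕ) : ℚ) with hsdef
  have hs : Function.Injective s := by
    intro a b hab
    simp only [hsdef] at hab
    exact Fin.ext (by exact_mod_cast hab)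
  have hc : coeff (ex E k) (PG inc ℚ) ≠ 0 := by
    rw [coeff_formula s hk hs _ (totalDegree_PG h2 hk)]
    have h1 : ∀ c : E → Fin k, (∏ e, lam s (c e)) * eval (fun e => s (c e)) (PG inc ℚ) =
        ((Matrix.vandermonde s).det ^ Fintype.card V * ∏ a, lam s a ^ (Fintype.card V / 2)) *
          ((∏ v, eps (fun j => c (inc v j)) : ℤ) : ℚ) := by
      intro c
      rw [eval_PG]
      have h3 : ∏ v : V, (Matrix.vandermonde (fun j : Fin k => s (c (inc v j)))).det =
          (∏ v : V, ((eps (fun j => c (inc v j)) : ℤ) : ℚ)) *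
            (Matrix.vandermonde s).det ^ Fintype.card V := by
        rw [Finset.prod_congr rfl (fun v _ => vandermonde_comp s (fun j => c (inc v j))),
          Finset.prod_mul_distrib]
        simp
      rw [h3]
      by_cases hp : ∀ v, Function.Injective (fun j => c (inc v j))
      · rw [prod_weights h2 _ c hp]
        push_cast
        ring
      · push Not at hp
        obtain ⟨v, hv⟩ := hp
        have h4 : ∏ v : V, eps (fun j => c (inc v j)) = 0 :=
          Finset.prod_eq_zero (Finset.mem_univ v) (eps_eq_zero _ hv)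
        have h5 : ∏ v : V, ((eps (fun j => c (inc v j)) : ℤ) : ℚ) = 0 := by
          rw [← Int.cast_prod, h4, Int.cast_zero]
        rw [h4, h5]
        simp
    simp_rw [h1]
    rw [← Finset.mul_sum, ← Int.cast_sum]
    refine mul_ne_zero (mul_ne_zero (pow_ne_zero _ ?_) ?_) (by exact_mod_cast hF)
    · rw [Ne, Matrix.det_vandermonde_eq_zero_iff]
      rintro ⟨i, j, hij, hne⟩
      exact hne (hs hij)
    · rw [Finset.prod_ne_zero_iff]
      intro a _
      exact pow_ne_zero _ (lam_ne s hs a)
  have hinj : Function.Injective (fun n : ℕ => (n : ℚ)) := Nat.cast_injective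
  have hdeg : (ex E k).degree = Fintype.card E * (k - 1) := by
    rw [Finsupp.degree_eq_sum]
    change ∑ _e : E, (k - 1) = _
    simp
  have htd : (PG inc ℚ).totalDegree = (ex E k).degree := by
    apply le_antisymm
    · rw [hdeg]
      exact totalDegree_PG h2 hk
    · exact le_totalDegree (mem_support_iff.2 hc)
  obtain ⟨g, hg1, hg2⟩ := combinatorial_nullstellensatz_exists_eval_nonzero (PG inc ℚ)
    (ex E k) hc htd (fun e => (L e).image (fun n : ℕ => (n : ℚ)))
    (by
      intro e
      rw [Finset.card_image_of_injective _ hinj]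
      change k - 1 < _
      have := hL e
      omega)
  have h3 : ∀ e, ∃ n ∈ L e, (n : ℚ) = g e := by
    intro e
    exact Finset.mem_image.1 (hg1 e)
  choose f hf1 hf2 using h3
  refine ⟨f, hf1, ?_⟩
  intro v i j hij
  by_contra hne
  rw [eval_PG, Finset.prod_ne_zero_iff] at hg2
  apply hg2 v (Finset.mem_univ v)
  rw [Matrix.det_vandermonde_eq_zero_iff]
  refine ⟨i, j, ?_, hne⟩
  simp only at hij
  rw [← hf2, ← hf2, hij]

end fin

end Pool.Agent.H604R2.LEC2
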