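import Pool.Agent.H604R2.LEC2.Full2

/-!
# List edge colourings of two cliques of prime order joined by a circulant bipartite graph
-/

set_option autoImplicit false
set_option linter.unusedSectionVars false

namespace Pool.Agent.H604R2.LEC2

open Finset Pool.Agent.H604R2.LEC

variable {p : ℕ} [Fact p.Prime]

/-- adjacency between the two cliques -/
def Rel (A : Finset (ZMod p)) (v w : Vx p) : Prop :=
  v.2 = w.2 ∨ (v.2 = false ∧ w.2 = true ∧ w.1 - v.1 ∈ A)

/-- The graph. -/
def TC (A : Finset (ZMod p)) : SimpleGraph (Vx p) := SimpleGraph.fromRel (Rel A)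

theorem two_cliques_list (hp2 : p ≠ 2) (A : Finset (ZMod p)) (hA : A.Nonempty)
    (L : Sym2 (Vx p) → Finset ℕ) (hL : ∀ e, p - 1 + A.card ≤ (L e).card) :
    ∃ F : Sym2 (Vx p) → ℕ, (∀ v w, (TC A).Adj v w → F s(v, w) ∈ L s(v, w)) ∧
      ∀ v w w', (TC A).Adj v w → (TC A).Adj v w' → w ≠ w' → F s(v, w) ≠ F s(v, w') := by
  classical
  obtain ⟨a0, ha0⟩ := hA
  let B := {a : ZMod p // a ∈ A.erase a0}
  have hcB : Fintype.card B = (A.erase a0).card := Fintype.card_coe _
  have hcB2 : Fintype.card B + 1 = A.card := by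
    rw [hcB, Finset.card_erase_add_one ha0]
  let α0 : Option B → ZMod p := fun o => o.elim a0 (fun b => b.1)
  have hα0 : Function.Injective α0 := by
    rintro (_ | b) (_ | b') h
    · rfl
    · exfalso
      have h1 := Finset.ne_of_mem_erase b'.2
      exact h1 h.symm
    · exfalso
      have h1 := Finset.ne_of_mem_erase b.2
      exact h1 h
    · exact congrArg some (Subtype.ext h)
  have hmem : ∀ o, α0 o ∈ A := by
    rintro (_ | b)
    · exact ha0
    · exact Finset.mem_of_mem_erase b.2
  have hsurj : ∀ a ∈ A, ∃ o, α0 o = a := by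
    intro a ha
    by_cases h : a = a0
    · exact ⟨none, h.symm⟩
    · exact ⟨some ⟨a, Finset.mem_erase.2 ⟨h, ha⟩⟩, rfl⟩
  have hcp : 0 < p := (Fact.out : p.Prime).pos
  have hcC : Fintype.card (Cs p B) = p - 1 + A.card := by
    rw [Fintype.card_sum, Fintype.card_subtype_compl, Fintype.card_subtype_eq, ZMod.card,
      Fintype.card_option, hcB2]
  have hFF : FF (rho p B) (iota α0) ≠ 0 := by
    by_cases hlt : Fintype.card B + 1 < p
    · exact FF_ne_of_lt hp2 α0 hlt
    · have h1 : Fintype.card (Option B) = Fintype.card (ZMod p) := by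
        apply le_antisymm
        · exact Fintype.card_le_of_injective _ hα0
        · rw [Fintype.card_option, ZMod.card]
          omega
      have h2 := (Fintype.bijective_iff_injective_and_card α0).2 ⟨hα0, h1⟩
      exact FF_ne_full (Equiv.ofBijective α0 h2) hp2
  obtain ⟨f, hf1, hf2, hf3⟩ := at_slots (rho p B) (iota α0) (iota_iota α0) (iota_ne α0)
    (by rw [hcC]; have := Finset.card_pos.2 ⟨a0, ha0⟩; omega) hFF
    (fun s => L s(s.1, (iota α0 s).1))
    (by
      intro s
      simp only [iota_iota]
      rw [Sym2.eq_swap])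
    (by
      intro s
      rw [hcC]
      exact hL _)
  have hslot : ∀ v w, (TC A).Adj v w → ∃ j, (iota α0 (v, j)).1 = w := by
    rintro ⟨x, i⟩ ⟨y, j⟩ h
    unfold TC at h
    rw [SimpleGraph.fromRel_adj] at h
    obtain ⟨hne, h⟩ := h
    by_cases hij : i = j
    · subst hij
      have hxy : y - x ≠ 0 := by
        intro h0
        apply hne
        rw [sub_eq_zero.1 h0]
      refine ⟨Sum.inl ⟨y - x, hxy⟩, ?_⟩
      simp [iota]
    · cases i <;> cases j
      · exact absurd rfl hij
      · have hA2 : y - x ∈ A := by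
          rcases h with h | h
          · rcases h with h | h
            · exact absurd h (by simp)
            · exact h.2.2
          · rcases h with h | h
            · exact absurd h (by simp)
            · exact absurd h.1 (by simp)
        obtain ⟨o, ho⟩ := hsurj _ hA2
        refine ⟨Sum.inr o, ?_⟩
        simp [iota, ho]
      · have hA2 : x - y ∈ A := by
          rcases h with h | h
          · rcases h with h | h
            · exact absurd h (by simp)
            · exact absurd h.1 (by simp)
          · rcases h with h | h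
            · exact absurd h (by simp)
            · exact h.2.2
        obtain ⟨o, ho⟩ := hsurj _ hA2
        refine ⟨Sum.inr o, ?_⟩
        simp [iota, ho]
      · exact absurd rfl hij
  have hslot_inj : ∀ v j j', (iota α0 (v, j)).1 = (iota α0 (v, j')).1 → j = j' := by
    rintro ⟨x, i⟩ (d | o) (d' | o') h
    · have h1 := congrArg Prod.fst h
      simp only [iota] at h1
      have h2 : d = d' := Subtype.ext (by simpa using h1)
      rw [h2]
    · exfalso
      have h1 := congrArg Prod.snd h
      cases i <;> simp [iota] at h1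
    · exfalso
      have h1 := congrArg Prod.snd h
      cases i <;> simp [iota] at h1
    · have h1 := congrArg Prod.fst h
      have h2 : o = o' := by
        apply hα0
        cases i
        · simpa [iota] using h1
        · simpa [iota] using h1
      rw [h2]
  have hwd : ∀ s s' : Vx p × Cs p B, s(s.1, (iota α0 s).1) = s(s'.1, (iota α0 s').1) →
      f s = f s' := by
    rintro ⟨v, j⟩ ⟨v', j'⟩ h
    rcases Sym2.eq_iff.1 h with ⟨h1, h2⟩ | ⟨h1, h2⟩
    · simp only at h1
      subst h1
      rw [hslot_inj _ _ _ h2]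
    · simp only at h1 h2
      have h3 : iota α0 (v', j') = (v, (iota α0 (v', j')).2) := Prod.ext h1.symm rfl
      have h4 : iota α0 (v, (iota α0 (v', j')).2) = (v', j') := by
        rw [← h3, iota_iota]
      have h5 : j = (iota α0 (v', j')).2 := by
        apply hslot_inj v
        rw [h4]
        exact h2
      rw [← hf1 (v', j'), h3, ← h5]
  let F : Sym2 (Vx p) → ℕ := fun e =>
    if h : ∃ s : Vx p × Cs p B, s(s.1, (iota α0 s).1) = e then f h.choose else 0
  have hF : ∀ s : Vx p × Cs p B, F s(s.1, (iota α0 s).1) = f s := by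
    intro s
    have h : ∃ s' : Vx p × Cs p B, s(s'.1, (iota α0 s').1) = s(s.1, (iota α0 s).1) := ⟨s, rfl⟩
    simp only [F]
    rw [dif_pos h]
    exact hwd _ _ h.choose_spec
  refine ⟨F, ?_, ?_⟩
  · intro v w h
    obtain ⟨j, hj⟩ := hslot v w h
    have h1 := hF (v, j)
    have h2 := hf2 (v, j)
    simp only [hj] at h1 h2
    rw [h1]
    exact h2
  · intro v w w' h h' hne heq
    obtain ⟨j, hj⟩ := hslot v w h
    obtain ⟨j', hj'⟩ := hslot v w' h'
    have h1 := hF (v, j)
    have h2 := hF (v, j')
    simp only [hj, hj'] at h1 h2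
    rw [h1, h2] at heq
    have h3 := hf3 v heq
    subst h3
    exact hne (hj.symm.trans hj')

/-- The degree bounds the number of colours. -/
theorem ncard_le_of_colorable {V : Type} [Fintype V] (G : SimpleGraph V) (k : ℕ)
    (hcol : G.lineGraph.Colorable k) (v : V) : (G.neighborSet v).ncard ≤ k := by
  classical
  obtain ⟨C⟩ := hcol
  let g : G.neighborSet v → Fin k := fun w => C ⟨s(v, w.1), w.2⟩
  have hg : Function.Injective g := by
    intro w w' hww
    by_contra hne
    have hne2 : w.1 ≠ w'.1 := fun h => hne (Subtype.ext h)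
    have hadj : G.lineGraph.Adj ⟨s(v, w.1), w.2⟩ ⟨s(v, w'.1), w'.2⟩ := by
      rw [SimpleGraph.lineGraph_adj_iff_exists]
      refine ⟨?_, v, ?_, ?_⟩
      · intro h
        have h2 := congrArg Subtype.val h
        simp only at h2
        rcases Sym2.eq_iff.1 h2 with ⟨_, h3⟩ | ⟨h3, _⟩
        · exact hne2 h3
        · have h4 : G.Adj v w'.1 := w'.2
          exact G.ne_of_adj h4 h3
      · exact Sym2.mem_mk_left _ _
      · exact Sym2.mem_mk_left _ _
    exact C.valid hadj hww
  have := Nat.card_le_card_of_injective g hg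
  rw [Nat.card_eq_fintype_card (α := Fin k), Fintype.card_fin] at this
  exact this

/-- Every graph with a proper edge colouring from equal lists has a colourable line graph. -/
theorem colorable_of_lists {V : Type} [Fintype V] (G : SimpleGraph V) (k : ℕ)
    (h : ∀ L : G.edgeSet → Finset ℕ, (∀ e, k ≤ (L e).card) →
      ∃ f : G.edgeSet → ℕ, (∀ e, f e ∈ L e) ∧ ∀ e e', G.lineGraph.Adj e e' → f e ≠ f e') :
    G.lineGraph.Colorable k := by
  obtain ⟨f, hf1, hf2⟩ := h (fun _ => Finset.range k) (by simp)
  refine ⟨SimpleGraph.Coloring.mk (fun e => (⟨f e, Finset.mem_range.1 (hf1 e)⟩ : Fin k)) ?_⟩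
  intro e e' hadj heq
  exact hf2 e e' hadj (Fin.mk.inj_iff.1 heq)

/-- Transfer of list edge colourings to subgraphs. -/
theorem transfer {V W : Type} [Fintype V] (G : SimpleGraph V) (H : SimpleGraph W) (m k : ℕ)
    (hH : ∀ L : Sym2 W → Finset ℕ, (∀ e, m ≤ (L e).card) →
      ∃ F : Sym2 W → ℕ, (∀ v w, H.Adj v w → F s(v, w) ∈ L s(v, w)) ∧
        ∀ v w w', H.Adj v w → H.Adj v w' → w ≠ w' → F s(v, w) ≠ F s(v, w'))
    (φ : G →g H) (hφ : Function.Injective φ) (hmk : m ≤ k)
    (L : G.edgeSet → Finset ℕ) (hL : ∀ e, k ≤ (L e).card) :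
    ∃ f : G.edgeSet → ℕ, (∀ e, f e ∈ L e) ∧ ∀ e e', G.lineGraph.Adj e e' → f e ≠ f e' := by
  classical
  let L' : Sym2 W → Finset ℕ := fun q =>
    if h : ∃ e : G.edgeSet, Sym2.map φ e.1 = q then L h.choose else Finset.range k
  have hL' : ∀ q, m ≤ (L' q).card := by
    intro q
    simp only [L']
    split_ifs with h
    · exact hmk.trans (hL _)
    · rw [Finset.card_range]
      exact hmk
  have hLe : ∀ e : G.edgeSet, L' (Sym2.map φ e.1) = L e := by
    intro e
    have h : ∃ e' : G.edgeSet, Sym2.map φ e'.1 = Sym2.map φ e.1 := ⟨e, rfl⟩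
    simp only [L']
    rw [dif_pos h]
    congr 1
    exact Subtype.ext (Sym2.map.injective hφ h.choose_spec)
  obtain ⟨F, hF1, hF2⟩ := hH L' hL'
  refine ⟨fun e => F (Sym2.map φ e.1), ?_, ?_⟩
  · intro e
    rw [← hLe e]
    obtain ⟨e, he⟩ := e
    induction e using Sym2.ind with
    | _ a b =>
      simp only [Sym2.map_mk]
      exact hF1 _ _ (φ.map_rel he)
  · intro e e' hadj
    rw [SimpleGraph.lineGraph_adj_iff_exists] at hadj
    obtain ⟨hne, v, hve, hve'⟩ := hadj
    obtain ⟨w, hw⟩ := hve
    obtain ⟨w', hw'⟩ := hve'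
    have h1 : G.Adj v w := by
      have h2 := e.2
      rw [hw, SimpleGraph.mem_edgeSet] at h2
      exact h2
    have h1' : G.Adj v w' := by
      have h2 := e'.2
      rw [hw', SimpleGraph.mem_edgeSet] at h2
      exact h2
    have hww' : w ≠ w' := by
      intro h
      apply hne
      apply Subtype.ext
      rw [hw, hw', h]
    simp only [hw, hw', Sym2.map_mk]
    exact hF2 _ _ _ (φ.map_rel h1) (φ.map_rel h1') (fun h => hww' (hφ h))

end Pool.Agent.H604R2.LEC2
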