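import Pool.Agent.H604R2.LEC2.Inv

/-!
# The signed number of starters is not divisible by `p`
-/

set_option autoImplicit false
set_option linter.unusedSectionVars false

namespace Pool.Agent.H604R2.LEC2

open Finset

variable {p : ℕ} [Fact p.Prime]

theorem sum_pow_last : ∑ x : ZMod p, x ^ (p - 1) = -1 := by
  have h1 : ∀ x : ZMod p, x ^ (p - 1) = 1 - (if x = 0 then 1 else 0) := by
    intro x
    by_cases h : x = 0
    · subst h
      rw [if_pos rfl, zero_pow]
      · ring
      · have := (Fact.out : p.Prime).two_le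
        omega
    · rw [if_neg h, ZMod.pow_card_sub_one_eq_one h]
      ring
  simp_rw [h1]
  rw [Finset.sum_sub_distrib]
  simp

/-- the difference sums -/
def aa (p : ℕ) [Fact p.Prime] (e : ZMod p) (i j : ℕ) : ZMod p :=
  ∑ x : ZMod p, x ^ i * ((x - e) ^ j - x ^ j)

theorem aa_expand (e : ZMod p) (i j : ℕ) : aa p e i j =
    ∑ l ∈ range j, (-e) ^ (j - l) * (j.choose l : ZMod p) * ∑ x : ZMod p, x ^ (i + l) := by
  unfold aa
  simp_rw [Finset.mul_sum]
  rw [Finset.sum_comm]
  apply Finset.sum_congr rfl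
  intro x _
  rw [sub_eq_add_neg x e, add_pow, Finset.sum_range_succ, Nat.sub_self, pow_zero, Nat.choose_self,
    Nat.cast_one, mul_one, mul_one, add_sub_cancel_right, Finset.mul_sum]
  apply Finset.sum_congr rfl
  intro l _
  rw [pow_add]
  ring

theorem aa_small (e : ZMod p) {i j : ℕ} (h : i + j < p) : aa p e i j = 0 := by
  rw [aa_expand]
  apply Finset.sum_eq_zero
  intro l hl
  have hl2 := Finset.mem_range.1 hl
  have h1 := FiniteField.sum_pow_lt_card_sub_one (ZMod p) (i + l) (by rw [ZMod.card]; omega)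
  rw [h1, mul_zero]

theorem aa_eq (e : ZMod p) {i j : ℕ} (h : i + j = p) (hj : 0 < j) : aa p e i j = j * e := by
  obtain ⟨k, rfl⟩ : ∃ k, j = k + 1 := ⟨j - 1, by omega⟩
  rw [aa_expand, Finset.sum_range_succ, Finset.sum_eq_zero, zero_add]
  · have h1 : i + k = p - 1 := by omega
    rw [h1, sum_pow_last]
    have h2 : k + 1 - k = 1 := by omega
    rw [h2, Nat.choose_succ_self_right]
    ring
  · intro l hl
    have hl2 := Finset.mem_range.1 hl
    have h1 := FiniteField.sum_pow_lt_card_sub_one (ZMod p) (i + l) (by rw [ZMod.card]; omega)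
    rw [h1, mul_zero]

/-- the index type -/
abbrev II (p : ℕ) : Type := Bool × Fin ((p - 1) / 2)

/-- exponents -/
def eta (r : II p) : ℕ := if r.1 then p - (r.2.val + 1) else r.2.val + 1

/-- flip -/
def flp (r : II p) : II p := (!r.1, r.2)

theorem flp_flp (r : II p) : flp (flp r) = r := by
  simp [flp]

theorem two_m (hp2 : p ≠ 2) : 2 * ((p - 1) / 2) + 1 = p := by
  obtain ⟨k, hk⟩ := (Fact.out : p.Prime).odd_of_ne_two hp2
  omega

theorem eta_pos (hp2 : p ≠ 2) (r : II p) : 0 < eta r ∧ eta r < p := by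
  have h1 := r.2.isLt
  have h2 := two_m (p := p) hp2
  unfold eta
  split_ifs <;> omega

theorem eta_flp (hp2 : p ≠ 2) (r : II p) : eta (flp r) + eta r = p := by
  have h1 := r.2.isLt
  have h2 := two_m (p := p) hp2
  unfold eta flp
  rcases r with ⟨b, d⟩
  cases b <;> simp <;> simp at h1 <;> omega

theorem eta_inj (hp2 : p ≠ 2) : Function.Injective (eta (p := p)) := by
  rintro ⟨b, d⟩ ⟨b', d'⟩ h
  have h1 := d.isLt
  have h1' := d'.isLt
  have h2 := two_m (p := p) hp2
  unfold eta at h
  cases b <;> cases b' <;> simp at h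
  · have : d = d' := Fin.ext (by omega)
    rw [this]
  · omega
  · omega
  · have : d = d' := Fin.ext (by omega)
    rw [this]

theorem eta_cast_ne (hp2 : p ≠ 2) (r : II p) : ((eta r : ℕ) : ZMod p) ≠ 0 := by
  intro h
  rw [ZMod.natCast_eq_zero_iff] at h
  have h1 := eta_pos hp2 r
  exact absurd (Nat.le_of_dvd h1.1 h) (by omega)

/-- the enumeration of the nonzero residues -/
noncomputable def zet (hp2 : p ≠ 2) : II p ≃ Nz p :=
  Equiv.ofBijective (fun r => ⟨((eta r : ℕ) : ZMod p), eta_cast_ne hp2 r⟩) (by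
    rw [Fintype.bijective_iff_injective_and_card]
    constructor
    · intro r s h
      have h1 := Subtype.ext_iff.1 h
      simp only at h1
      rw [ZMod.natCast_eq_natCast_iff] at h1
      have h2 := eta_pos hp2 r
      have h3 := eta_pos hp2 s
      exact eta_inj hp2 (Nat.ModEq.eq_of_lt_of_lt h1 h2.2 h3.2)
    · rw [Fintype.card_subtype_compl, Fintype.card_subtype_eq, ZMod.card]
      have h2 := two_m (p := p) hp2
      simp
      omega)

theorem zet_val (hp2 : p ≠ 2) (r : II p) : (zet hp2 r).1 = ((eta r : ℕ) : ZMod p) := rfl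

theorem zet_flp (hp2 : p ≠ 2) (r : II p) : zet hp2 (flp r) = nneg (zet hp2 r) := by
  apply Subtype.ext
  rw [zet_val]
  simp only [nneg, zet_val]
  have h1 := congrArg (fun n : ℕ => (n : ZMod p)) (eta_flp hp2 r)
  simp only [Nat.cast_add, CharP.cast_eq_zero] at h1
  linear_combination h1

/-- the function attached to a choice -/
def ft (t : Fin ((p - 1) / 2) → ZMod p) (r : II p) : ZMod p :=
  if r.1 then t r.2 - ((r.2.val + 1 : ℕ) : ZMod p) else t r.2

/-- the matrices -/
def MM (g : II p → ZMod p) : Matrix (II p) (II p) (ZMod p) := Matrix.of fun c r => g r ^ eta c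

/-- the matrix after a column operation -/
def MM' (t : Fin ((p - 1) / 2) → ZMod p) : Matrix (II p) (II p) (ZMod p) :=
  Matrix.of fun c r => if r.1 then ft t r ^ eta c - (t r.2) ^ eta c else (t r.2) ^ eta c

/-- the column operation -/
def LL (p : ℕ) : Matrix (II p) (II p) (ZMod p) :=
  Matrix.blockDiagonal fun _ : Fin ((p - 1) / 2) =>
    (Matrix.of fun a b : Bool => if a = b then (1 : ZMod p) else if b then -1 else 0)

theorem det_LL : (LL p).det = 1 := by
  unfold LL
  rw [Matrix.det_blockDiagonal]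
  apply Finset.prod_eq_one
  intro _ _
  rw [← Matrix.det_submatrix_equiv_self finTwoEquiv]
  rw [Matrix.det_fin_two]
  simp
  intro h
  exact absurd h (by decide)

theorem MM'_eq (t : Fin ((p - 1) / 2) → ZMod p) : MM' t = MM (ft t) * LL p := by
  ext c r
  obtain ⟨b, d⟩ := r
  rw [Matrix.mul_apply, Fintype.sum_prod_type, Finset.sum_comm]
  rw [Finset.sum_eq_single d]
  · unfold LL
    simp only [Matrix.blockDiagonal_apply, Fintype.sum_bool]
    cases b
    · simp [MM', MM, ft]
    · simp [MM', MM, ft]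
      ring
  · intro d' _ hd'
    unfold LL
    simp only [Matrix.blockDiagonal_apply, Fintype.sum_bool, if_neg hd']
    ring
  · intro h
    exact absurd (Finset.mem_univ _) h

theorem det_MM' (t : Fin ((p - 1) / 2) → ZMod p) : (MM' t).det = (MM (ft t)).det := by
  rw [MM'_eq, Matrix.det_mul, det_LL, mul_one]

theorem det_MM_zero (g : II p → ZMod p) (hp2 : p ≠ 2)
    (h : ¬ (Function.Injective g ∧ ∀ r, g r ≠ 0)) : (MM g).det = 0 := by
  by_cases h0 : ∀ r, g r ≠ 0
  · have hi : ¬ Function.Injective g := fun hi => h ⟨hi, h0⟩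
    unfold Function.Injective at hi
    push Not at hi
    obtain ⟨a, b, hab, hne⟩ := hi
    apply Matrix.det_zero_of_column_eq hne
    intro c
    simp [MM, hab]
  · push Not at h0
    obtain ⟨r, hr⟩ := h0
    apply Matrix.det_eq_zero_of_column_eq_zero r
    intro c
    simp only [MM, Matrix.of_apply, hr]
    exact zero_pow (eta_pos hp2 c).1.ne'

theorem det_MM_perm (hp2 : p ≠ 2) (f : Equiv.Perm (Nz p)) :
    (MM (fun r => (f (zet hp2 r)).1)).det =
      ((Equiv.Perm.sign f : ℤ) : ZMod p) * (MM (fun r => (zet hp2 r).1)).det := by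
  have h1 : MM (fun r => (f (zet hp2 r)).1) =
      (MM (fun r => (zet hp2 r).1)).submatrix id ((zet hp2).symm.permCongr f) := by
    ext c r
    simp [MM, Equiv.permCongr_apply]
  rw [h1, Matrix.det_permute', Equiv.Perm.sign_permCongr]

open Classical in
theorem sum_det (hp2 : p ≠ 2) : ∑ t : Fin ((p - 1) / 2) → ZMod p, (MM (ft t)).det =
    ((TT p : ℤ) : ZMod p) * (MM (fun r => (zet hp2 r).1)).det := by
  let tf : Equiv.Perm (Nz p) → Fin ((p - 1) / 2) → ZMod p := fun f d => (f (zet hp2 (false, d))).1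
  have hft : ∀ f, IsSt f → ∀ r, ft (tf f) r = (f (zet hp2 r)).1 := by
    rintro f hf ⟨b, d⟩
    cases b
    · simp [ft, tf]
    · have h1 := hf (zet hp2 (false, d))
      rw [← zet_flp] at h1
      have h2 : flp ((false, d) : II p) = (true, d) := rfl
      rw [h2] at h1
      have h3 : (zet hp2 (false, d)).1 = ((d.val + 1 : ℕ) : ZMod p) := by
        rw [zet_val]
        simp [eta]
      rw [h3] at h1
      simp only [ft, tf, if_true]
      rw [h1]
      ring
  have h1 : ∑ t : Fin ((p - 1) / 2) → ZMod p, (MM (ft t)).det =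
      ∑ t ∈ (univ.filter (fun f : Equiv.Perm (Nz p) => IsSt f)).image tf, (MM (ft t)).det := by
    symm
    apply Finset.sum_subset (Finset.subset_univ _)
    intro t _ ht
    apply det_MM_zero _ hp2
    rintro ⟨hi, h0⟩
    apply ht
    rw [Finset.mem_image]
    let f0 : Nz p → Nz p := fun z => ⟨ft t ((zet hp2).symm z), h0 _⟩
    have hf0 : Function.Injective f0 := by
      intro a b hab
      have h2 := Subtype.ext_iff.1 hab
      simp only [f0] at h2
      exact (zet hp2).symm.injective (hi h2)
    have hfz : ∀ r, f0 (zet hp2 r) = ⟨ft t r, h0 r⟩ := by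
      intro r
      apply Subtype.ext
      simp only [f0, Equiv.symm_apply_apply]
    refine ⟨Equiv.ofBijective f0 (Finite.injective_iff_bijective.1 hf0), ?_, ?_⟩
    · rw [Finset.mem_filter]
      refine ⟨Finset.mem_univ _, ?_⟩
      intro z
      obtain ⟨r, rfl⟩ := (zet hp2).surjective z
      change (f0 (zet hp2 r)).1 = (f0 (nneg (zet hp2 r))).1 + _
      rw [← zet_flp, hfz, hfz, zet_val]
      obtain ⟨b, d⟩ := r
      cases b
      · simp [ft, flp, eta]
      · have h3 := eta_flp hp2 ((false, d) : II p)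
        have h4 := congrArg (fun n : ℕ => (n : ZMod p)) h3
        simp only [Nat.cast_add, CharP.cast_eq_zero] at h4
        have h5 : flp ((false, d) : II p) = (true, d) := rfl
        have h6 : ((eta ((false, d) : II p) : ℕ) : ZMod p) = ((d.val + 1 : ℕ) : ZMod p) := by
          simp [eta]
        rw [h5, h6] at h4
        simp only [ft, flp, if_true]
        simp
        push_cast at h4
        linear_combination -h4
    · funext d
      simp only [tf]
      change (f0 (zet hp2 (false, d))).1 = _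
      rw [hfz]
      simp [ft]
  rw [h1, Finset.sum_image]
  · unfold TT
    rw [Int.cast_sum, Finset.sum_mul]
    apply Finset.sum_congr rfl
    intro f hf
    rw [← det_MM_perm hp2 f]
    congr 2
    funext r
    exact hft f (Finset.mem_filter.1 hf).2 r
  · intro f hf g hg hfg
    have hf2 := (Finset.mem_filter.1 hf).2
    have hg2 := (Finset.mem_filter.1 hg).2
    apply Equiv.ext
    intro z
    obtain ⟨r, rfl⟩ := (zet hp2).surjective z
    apply Subtype.ext
    rw [← hft f hf2, ← hft g hg2]
    rw [hfg]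

theorem sum_det' : ∑ t : Fin ((p - 1) / 2) → ZMod p, (MM' t).det =
    ∑ σ : Equiv.Perm (II p), ((Equiv.Perm.sign σ : ℤ) : ZMod p) *
      ∏ d, aa p ((d.val + 1 : ℕ) : ZMod p) (eta (σ (false, d))) (eta (σ (true, d))) := by
  simp_rw [Matrix.det_apply']
  rw [Finset.sum_comm]
  apply Finset.sum_congr rfl
  intro σ _
  rw [← Finset.mul_sum]
  congr 1
  unfold aa
  rw [Finset.prod_univ_sum, Fintype.piFinset_univ]
  apply Finset.sum_congr rfl
  intro t _
  rw [Fintype.prod_prod_type, Finset.prod_comm]
  apply Finset.prod_congr rfl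
  intro d _
  rw [Fintype.prod_bool]
  simp only [MM', Matrix.of_apply, ft]
  simp
  ring

/-- permutations commuting with the flip -/
def Cent (σ : Equiv.Perm (II p)) : Prop := ∀ r, σ (flp r) = flp (σ r)

theorem cent_of_ne (hp2 : p ≠ 2) (σ : Equiv.Perm (II p))
    (h : ∏ d, aa p ((d.val + 1 : ℕ) : ZMod p) (eta (σ (false, d))) (eta (σ (true, d))) ≠ 0) :
    Cent σ := by
  rw [Finset.prod_ne_zero_iff] at h
  have h1 : ∀ d : Fin ((p - 1) / 2), p ≤ eta (σ (false, d)) + eta (σ (true, d)) := by
    intro d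
    by_contra hlt
    exact h d (Finset.mem_univ _) (aa_small _ (by omega))
  have h2 : ∑ d : Fin ((p - 1) / 2), (eta (σ (false, d)) + eta (σ (true, d))) =
      ∑ _d : Fin ((p - 1) / 2), p := by
    have h3 : ∀ g : II p → ℕ, ∑ d : Fin ((p - 1) / 2), (g (false, d) + g (true, d)) =
        ∑ r, g r := by
      intro g
      rw [Fintype.sum_prod_type, Fintype.sum_bool, ← Finset.sum_add_distrib]
      apply Finset.sum_congr rfl
      intro d _
      ring
    rw [h3 (fun r => eta (σ r)), Equiv.sum_comp σ (fun r => eta r), ← h3]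
    apply Finset.sum_congr rfl
    intro d _
    have h4 := eta_flp hp2 ((false, d) : II p)
    have h5 : flp ((false, d) : II p) = (true, d) := rfl
    rw [h5] at h4
    omega
  have h3 : ∀ d : Fin ((p - 1) / 2), p = eta (σ (false, d)) + eta (σ (true, d)) := by
    have h4 := (Finset.sum_eq_sum_iff_of_le (s := (univ : Finset (Fin ((p - 1) / 2))))
      (f := fun _ => p) (g := fun d => eta (σ (false, d)) + eta (σ (true, d)))
      (fun d _ => h1 d)).1 h2.symm
    intro d
    exact h4 d (Finset.mem_univ _)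
  have h4 : ∀ d : Fin ((p - 1) / 2), σ (true, d) = flp (σ (false, d)) := by
    intro d
    apply eta_inj hp2
    have h5 := eta_flp hp2 (σ (false, d))
    have h6 := h3 d
    omega
  rintro ⟨b, d⟩
  cases b
  · exact h4 d
  · have h5 : flp ((true, d) : II p) = (false, d) := rfl
    rw [h5, h4 d, flp_flp]

theorem eta_cast (hp2 : p ≠ 2) (b : Bool) (d : Fin ((p - 1) / 2)) :
    ((eta ((b, d) : II p) : ℕ) : ZMod p) =
      if b then -((d.val + 1 : ℕ) : ZMod p) else ((d.val + 1 : ℕ) : ZMod p) := by
  cases b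
  · simp [eta]
  · have h3 := eta_flp hp2 ((false, d) : II p)
    have h4 := congrArg (fun n : ℕ => (n : ZMod p)) h3
    simp only [Nat.cast_add, CharP.cast_eq_zero] at h4
    have h5 : flp ((false, d) : II p) = (true, d) := rfl
    have h6 : ((eta ((false, d) : II p) : ℕ) : ZMod p) = ((d.val + 1 : ℕ) : ZMod p) := by
      simp [eta]
    rw [h5, h6] at h4
    rw [if_pos rfl]
    linear_combination h4

theorem sign_cent (hp2 : p ≠ 2) (σ : Equiv.Perm (II p)) (hσ : Cent σ) :
    ((Equiv.Perm.sign σ : ℤ) : ZMod p) * ∏ d, ((eta (σ (true, d)) : ℕ) : ZMod p) =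
      ∏ d : Fin ((p - 1) / 2), (-((d.val + 1 : ℕ) : ZMod p)) := by
  let π0 : Fin ((p - 1) / 2) → Fin ((p - 1) / 2) := fun d => (σ (true, d)).2
  have hπ0 : Function.Injective π0 := by
    intro a b hab
    by_contra hne
    by_cases h1 : (σ (true, a)).1 = (σ (true, b)).1
    · have h2 : σ (true, a) = σ (true, b) := Prod.ext h1 hab
      exact hne (Prod.ext_iff.1 (σ.injective h2)).2
    · have h2 : σ (true, a) = flp (σ (true, b)) := by
        refine Prod.ext ?_ hab
        simp only [flp]
        revert h1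
        cases (σ (true, a)).1 <;> cases (σ (true, b)).1 <;> simp
      rw [← hσ] at h2
      have h3 := (Prod.ext_iff.1 (σ.injective h2)).1
      simp [flp] at h3
  let π : Equiv.Perm (Fin ((p - 1) / 2)) :=
    Equiv.ofBijective π0 (Finite.injective_iff_bijective.1 hπ0)
  let ε : Fin ((p - 1) / 2) → Equiv.Perm Bool :=
    fun d => if (σ (true, d)).1 then 1 else Equiv.swap true false
  have hdec : σ = (Equiv.prodCongrRight fun _ : Bool => π) * (Equiv.prodCongrLeft ε) := by
    ext1 r
    obtain ⟨b, d⟩ := r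
    rw [Equiv.Perm.mul_apply]
    change _ = ((ε d b, π d) : II p)
    cases b
    · have h5 : flp ((true, d) : II p) = (false, d) := rfl
      have h6 := hσ (true, d)
      rw [h5] at h6
      rw [h6]
      simp only [ε, flp]
      refine Prod.ext ?_ rfl
      simp only
      cases (σ (true, d)).1 <;> simp
    · refine Prod.ext ?_ rfl
      simp only [ε]
      cases (σ (true, d)).1 <;> simp
  have hsign : ((Equiv.Perm.sign σ : ℤ) : ZMod p) =
      ∏ d : Fin ((p - 1) / 2), ((Equiv.Perm.sign (ε d) : ℤ) : ZMod p) := by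
    rw [hdec, Equiv.Perm.sign_mul, Equiv.Perm.sign_prodCongrRight, Equiv.Perm.sign_prodCongrLeft,
      Fintype.prod_bool, Int.units_mul_self, one_mul, Units.coe_prod, Int.cast_prod]
  rw [hsign, ← Finset.prod_mul_distrib]
  have h7 : ∀ d : Fin ((p - 1) / 2), ((Equiv.Perm.sign (ε d) : ℤ) : ZMod p) *
      ((eta (σ (true, d)) : ℕ) : ZMod p) = -(((π d).val + 1 : ℕ) : ZMod p) := by
    intro d
    have h8 : σ (true, d) = ((σ (true, d)).1, π d) := rfl
    rw [h8, eta_cast hp2]
    simp only [ε]
    cases (σ (true, d)).1 <;> simp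
  rw [Finset.prod_congr rfl (fun d _ => h7 d)]
  exact Equiv.prod_comp π (fun d => -((d.val + 1 : ℕ) : ZMod p))

open Classical in
theorem card_cent (hp2 : p ≠ 2) :
    (((univ.filter (fun σ : Equiv.Perm (II p) => Cent σ)).card : ℕ) : ZMod p) ≠ 0 := by
  let φ : Equiv.Perm (II p) := ⟨flp, flp, flp_flp, flp_flp⟩
  let H : Subgroup (Equiv.Perm (II p)) := Subgroup.centralizer {φ}
  have h1 : (univ.filter (fun σ : Equiv.Perm (II p) => Cent σ)).card = Nat.card H := by
    rw [Nat.card_eq_fintype_card, Fintype.card_subtype]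
    congr 1
    ext σ
    rw [Finset.mem_filter, Finset.mem_filter]
    refine and_congr_right (fun _ => ?_)
    rw [Subgroup.mem_centralizer_singleton_iff]
    constructor
    · intro h
      ext1 r
      rw [Equiv.Perm.mul_apply, Equiv.Perm.mul_apply]
      exact h r
    · intro h r
      have h2 := Equiv.congr_fun h r
      rw [Equiv.Perm.mul_apply, Equiv.Perm.mul_apply] at h2
      exact h2
  rw [h1]
  have h2 : Nat.card H ∣ Nat.card (Equiv.Perm (II p)) := Subgroup.card_subgroup_dvd_card H
  rw [Nat.card_eq_fintype_card (α := Equiv.Perm (II p)), Fintype.card_perm] at h2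
  have h3 : Fintype.card (II p) = p - 1 := by
    have := two_m (p := p) hp2
    simp
    omega
  rw [h3] at h2
  intro h4
  rw [ZMod.natCast_eq_zero_iff] at h4
  have h5 := (Fact.out : p.Prime).dvd_factorial.1 (h4.trans h2)
  have := (Fact.out : p.Prime).two_le
  omega

/-- The signed number of starters is not divisible by `p`. -/
theorem TT_ne (hp2 : p ≠ 2) : ((TT p : ℤ) : ZMod p) ≠ 0 := by
  classical
  intro h0
  have h1 := sum_det (p := p) hp2
  rw [h0, zero_mul, ← Finset.sum_congr rfl (fun t _ => det_MM' t), sum_det'] at h1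
  have h2 : ∑ σ : Equiv.Perm (II p), ((Equiv.Perm.sign σ : ℤ) : ZMod p) *
      ∏ d, aa p ((d.val + 1 : ℕ) : ZMod p) (eta (σ (false, d))) (eta (σ (true, d))) =
      ∑ σ ∈ univ.filter (fun σ : Equiv.Perm (II p) => Cent σ),
        ((∏ d : Fin ((p - 1) / 2), (-((d.val + 1 : ℕ) : ZMod p))) *
          ∏ d : Fin ((p - 1) / 2), ((d.val + 1 : ℕ) : ZMod p)) := by
    rw [← Finset.sum_filter_add_sum_filter_not univ (fun σ : Equiv.Perm (II p) => Cent σ),
      Finset.sum_eq_zero (s := univ.filter (fun σ : Equiv.Perm (II p) => ¬ Cent σ)), add_zero]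
    · apply Finset.sum_congr rfl
      intro σ hσ
      have hc := (Finset.mem_filter.1 hσ).2
      rw [← sign_cent hp2 σ hc, mul_assoc, ← Finset.prod_mul_distrib]
      congr 1
      apply Finset.prod_congr rfl
      intro d _
      have h5 : flp ((false, d) : II p) = (true, d) := rfl
      have h6 := hc (false, d)
      rw [h5] at h6
      apply aa_eq
      · rw [h6, add_comm]
        exact eta_flp hp2 _
      · exact (eta_pos hp2 _).1
    · intro σ hσ
      have hc := (Finset.mem_filter.1 hσ).2
      by_contra hne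
      exact hc (cent_of_ne hp2 σ (right_ne_zero_of_mul hne))
  rw [h2, Finset.sum_const, nsmul_eq_mul] at h1
  have h3 : ∀ d : Fin ((p - 1) / 2), ((d.val + 1 : ℕ) : ZMod p) ≠ 0 := by
    intro d
    have := eta_cast_ne hp2 ((false, d) : II p)
    simpa [eta] using this
  refine mul_ne_zero (card_cent hp2) (mul_ne_zero ?_ ?_) h1
  · rw [Finset.prod_ne_zero_iff]
    intro d _
    exact neg_ne_zero.2 (h3 d)
  · rw [Finset.prod_ne_zero_iff]
    intro d _
    exact h3 d

end Pool.Agent.H604R2.LEC2
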