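import Pool.Agent.H604R2.LEC2.Orb
import Pool.Agent.H604R2.LEC2.Starter

/-!
# The signed number of 1-factorisations of `K_{2p}` modulo `p ^ 3`
-/

set_option autoImplicit false
set_option linter.unusedSectionVars false

namespace Pool.Agent.H604R2.LEC2

open Finset Pool.Agent.H604R2.LEC

variable {p : ℕ} [Fact p.Prime] {B : Type} [Fintype B] [DecidableEq B]

/-- If not all mixed differences are used, the signed number is not zero. -/
theorem FF_ne_of_lt (hp2 : p ≠ 2) (α : Option B → ZMod p) (hB : Fintype.card B + 1 < p) :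
    FF (rho p B) (iota α) ≠ 0 := by
  intro h0
  have h1 := FF_mod hp2 α
  rw [h0, zero_sub, dvd_neg] at h1
  have hp : (p : ℤ) ≠ 0 := by exact_mod_cast (Fact.out : p.Prime).ne_zero
  have hpp : Prime (p : ℤ) := Nat.prime_iff_prime_int.1 (Fact.out : p.Prime)
  have h2 : (p : ℤ) ∣ ((p : ℤ) - 1) * (((Fintype.card B + 1).factorial : ℤ) * TT p ^ 2) := by
    have h3 : ((p : ℤ) - 1) * ((p : ℤ) * ((Fintype.card B + 1).factorial : ℤ) * TT p ^ 2) =
        (p : ℤ) * (((p : ℤ) - 1) * (((Fintype.card B + 1).factorial : ℤ) * TT p ^ 2)) := by ring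
    rw [h3, pow_two] at h1
    exact Int.dvd_of_mul_dvd_mul_left hp h1
  rcases hpp.dvd_or_dvd h2 with h3 | h3
  · have h4 : (p : ℤ) ∣ 1 := by
      have := dvd_sub_comm.1 h3
      have h5 : (p : ℤ) ∣ (1 - (p : ℤ)) + p := dvd_add this (dvd_refl _)
      simpa using h5
    exact hpp.not_dvd_one h4
  · rcases hpp.dvd_or_dvd h3 with h4 | h4
    · have h5 : p ∣ (Fintype.card B + 1).factorial := by exact_mod_cast h4
      have h6 := (Fact.out : p.Prime).dvd_factorial.1 h5
      omega
    · have h5 := hpp.dvd_of_dvd_pow h4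
      apply TT_ne (p := p) hp2
      rw [ZMod.intCast_zmod_eq_zero_iff_dvd]
      exact h5

/-! ### All mixed differences -/

variable (α : Option B ≃ ZMod p)

/-- translation of the vertices by `t.1` on the first block and `t.2` on the second block -/
def tv (t : ZMod p × ZMod p) : Equiv.Perm (Vx p) where
  toFun v := (v.1 + (if v.2 then t.2 else t.1), v.2)
  invFun v := (v.1 - (if v.2 then t.2 else t.1), v.2)
  left_inv := by
    rintro ⟨x, i⟩
    simp
  right_inv := by
    rintro ⟨x, i⟩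
    simp

/-- translation of the mixed slots -/
def ss (c : ZMod p) : Equiv.Perm (Cs p B) :=
  Equiv.sumCongr (Equiv.refl _) (α.symm.permCongr (Equiv.addRight c))

@[simp] theorem ss_inl (c : ZMod p) (d : Nz p) : ss α c (Sum.inl d) = Sum.inl d := rfl

@[simp] theorem ss_inr (c : ZMod p) (o : Option B) :
    ss α c (Sum.inr o) = Sum.inr (α.symm (α o + c)) := by
  simp [ss, Equiv.permCongr_apply]

theorem sign_ss (hp2 : p ≠ 2) (c : ZMod p) : Equiv.Perm.sign (ss α c) = 1 := by
  unfold ss
  have h3 := Equiv.Perm.sign_sumCongr (1 : Equiv.Perm (Nz p))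
    (α.symm.permCongr (Equiv.addRight c))
  rw [Equiv.Perm.sign_permCongr, sign_addRight hp2] at h3
  simpa using h3

/-- The translation on slots. -/
def mt (t : ZMod p × ZMod p) (s : Vx p × Cs p B) : Vx p × Cs p B :=
  (tv t s.1, ss α (t.2 - t.1) s.2)

theorem mt_iota (t : ZMod p × ZMod p) (s : Vx p × Cs p B) :
    mt α t (iota α s) = iota α (mt α t s) := by
  obtain ⟨⟨x, i⟩, d | o⟩ := s
  · simp only [mt, iota, ss_inl, tv, Equiv.coe_fn_mk]
    rw [add_right_comm]
  · cases i
    · simp only [mt, iota, ss_inr, tv, Equiv.coe_fn_mk]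
      simp
      ring
    · simp only [mt, iota, ss_inr, tv, Equiv.coe_fn_mk]
      simp
      ring

theorem mt_add (s t : ZMod p × ZMod p) (r : Vx p × Cs p B) :
    mt α (s + t) r = mt α s (mt α t r) := by
  obtain ⟨⟨x, i⟩, d | o⟩ := r
  · cases i
    · simp [mt, tv]
      ring
    · simp [mt, tv]
      ring
  · cases i
    · simp [mt, tv]
      constructor <;> ring
    · simp [mt, tv]
      constructor <;> ring

theorem mt_zero (r : Vx p × Cs p B) : mt α 0 r = r := by
  obtain ⟨⟨x, i⟩, d | o⟩ := r <;> simp [mt, tv]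

/-- The action of the group of order `p ^ 3`. -/
def act2 (g : (ZMod p × ZMod p) × ZMod p) (u : Us p B) : Us p B :=
  fun σ => sh g.2 (u (mt α (-g.1) σ))

theorem wt_act2 (hp2 : p ≠ 2) (g : (ZMod p × ZMod p) × ZMod p) (u : Us p B) :
    wt α (act2 α g u) = wt α u := by
  exact wt_comp α (tv (-g.1)) (fun _ => ss α ((-g.1).2 - (-g.1).1)) (sh g.2) (by
      intro v j
      exact mt_iota α (-g.1) (v, j)) (by
      apply Finset.prod_eq_one
      intro v _
      exact sign_ss α hp2 _) u

/-- equivariance with speeds `b` and `s` -/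
def InvG (b s : ZMod p) (u : Us p B) : Prop :=
  ∀ (y : ZMod p) (r : Vx p × Cs p B), u (mt α (y, b * y) r) = sh (y * s) (u r)

theorem invG_one (u : Us p B) : InvG α 1 1 u ↔ Inv1 u := by
  unfold InvG Inv1
  constructor
  · intro h y x i j
    have h1 := h y ((x, i), j)
    rw [mul_one] at h1
    rw [← h1]
    congr 1
    rcases j with d | o <;> cases i <;> simp [mt, tv]
  · rintro h y ⟨⟨x, i⟩, j⟩
    have h1 := h y x i j
    rw [mul_one, ← h1]
    congr 1
    rcases j with d | o <;> cases i <;> simp [mt, tv]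

/-- scaling of the second block -/
def phi (b : ZMod p) (hb : b ≠ 0) : Equiv.Perm (Vx p) where
  toFun v := if v.2 then (b⁻¹ * v.1, true) else (v.1, false)
  invFun v := if v.2 then (b * v.1, true) else (v.1, false)
  left_inv := by
    rintro ⟨x, i⟩
    cases i <;> simp [hb]
  right_inv := by
    rintro ⟨x, i⟩
    cases i <;> simp [hb]

/-- multiplication on the nonzero residues -/
def mulNz (b : ZMod p) (hb : b ≠ 0) : Equiv.Perm (Nz p) :=
  (Equiv.mulLeft₀ b hb).subtypePerm (p := fun x => x ≠ 0) (by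
    intro x
    simp [hb])

theorem sign_mulNz (b : ZMod p) (hb : b ≠ 0) :
    Equiv.Perm.sign (mulNz b hb) = Equiv.Perm.sign (Equiv.mulLeft₀ b hb) := by
  unfold mulNz
  apply Equiv.Perm.sign_subtypePerm
  intro x hx h0
  apply hx
  simp [h0]

theorem mulNz_val (b : ZMod p) (hb : b ≠ 0) (d : Nz p) : (mulNz b hb d).1 = b * d.1 := rfl

/-- the action of the scaling on slots -/
def chi (b : ZMod p) (hb : b ≠ 0) (v : Vx p) : Equiv.Perm (Cs p B) :=
  if v.2 then Equiv.sumCongr (mulNz b⁻¹ (inv_ne_zero hb))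
      (α.symm.permCongr (Equiv.addRight (b⁻¹ * v.1 - v.1)))
    else Equiv.sumCongr (Equiv.refl _)
      (α.symm.permCongr ((Equiv.mulLeft₀ b⁻¹ (inv_ne_zero hb)).trans
        (Equiv.addRight (b⁻¹ * v.1 - v.1))))

theorem sign_chi_true (hp2 : p ≠ 2) (b : ZMod p) (hb : b ≠ 0) (x : ZMod p) :
    Equiv.Perm.sign (chi α b hb (x, true)) =
      Equiv.Perm.sign (Equiv.mulLeft₀ b⁻¹ (inv_ne_zero hb)) := by
  unfold chi
  rw [if_pos rfl, Equiv.Perm.sign_sumCongr, Equiv.Perm.sign_permCongr, sign_addRight hp2,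
    sign_mulNz, mul_one]

theorem sign_chi_false (hp2 : p ≠ 2) (b : ZMod p) (hb : b ≠ 0) (x : ZMod p) :
    Equiv.Perm.sign (chi α b hb (x, false)) =
      Equiv.Perm.sign (Equiv.mulLeft₀ b⁻¹ (inv_ne_zero hb)) := by
  unfold chi
  have h3 := Equiv.Perm.sign_sumCongr (1 : Equiv.Perm (Nz p))
    (α.symm.permCongr ((Equiv.mulLeft₀ b⁻¹ (inv_ne_zero hb)).trans
        (Equiv.addRight (b⁻¹ * x - x))))
  rw [Equiv.Perm.sign_permCongr] at h3
  have h4 : Equiv.Perm.sign ((Equiv.mulLeft₀ b⁻¹ (inv_ne_zero hb)).trans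
        (Equiv.addRight (b⁻¹ * x - x))) =
      Equiv.Perm.sign (Equiv.mulLeft₀ b⁻¹ (inv_ne_zero hb)) := by
    rw [Equiv.Perm.sign_trans, sign_addRight hp2, one_mul]
  rw [h4] at h3
  simpa using h3

theorem prod_sign_chi (hp2 : p ≠ 2) (b : ZMod p) (hb : b ≠ 0) :
    ∏ v : Vx p, Equiv.Perm.sign (chi α b hb v) = 1 := by
  rw [Fintype.prod_prod_type]
  simp only [Fintype.prod_bool]
  apply Finset.prod_eq_one
  intro x _
  rw [sign_chi_true α hp2, sign_chi_false α hp2, Int.units_mul_self]

theorem chi_iota (b : ZMod p) (hb : b ≠ 0) (s : Vx p × Cs p B) :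
    ((phi b hb (iota α s).1, chi α b hb (iota α s).1 (iota α s).2) : Vx p × Cs p B) =
      iota α (phi b hb s.1, chi α b hb s.1 s.2) := by
  obtain ⟨⟨x, i⟩, d | o⟩ := s
  · cases i
    · simp [iota, phi, chi]
    · simp only [iota, phi, chi]
      simp
      constructor
      · rw [mulNz_val]
        ring
      · apply Subtype.ext
        rw [mulNz_val]
        simp only [nneg]
        rw [mulNz_val]
        ring
  · cases i
    · simp [iota, phi, chi, Equiv.permCongr_apply]
      constructor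
      · ring
      · ring
    · simp [iota, phi, chi, Equiv.permCongr_apply]
      constructor <;> ring

theorem chi_mt (b : ZMod p) (hb : b ≠ 0) (y : ZMod p) (s : Vx p × Cs p B) :
    ((phi b hb (mt α (y, b * y) s).1, chi α b hb (mt α (y, b * y) s).1 (mt α (y, b * y) s).2) :
      Vx p × Cs p B) = mt α (y, y) (phi b hb s.1, chi α b hb s.1 s.2) := by
  obtain ⟨⟨x, i⟩, d | o⟩ := s
  · cases i
    · simp [mt, tv, phi, chi]
    · simp [mt, tv, phi, chi]
      field_simp
  · cases i
    · simp [mt, tv, phi, chi, Equiv.permCongr_apply]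
      field_simp
      ring
    · simp [mt, tv, phi, chi, Equiv.permCongr_apply]
      constructor
      · field_simp
      · field_simp
        ring

/-- the scaling map on functions -/
def scal (b : ZMod p) (hb : b ≠ 0) (s : ZMod p) (hs : s ≠ 0) (u : Us p B) : Us p B :=
  fun r => kap s hs (u (phi b hb r.1, chi α b hb r.1 r.2))

theorem wt_scal (hp2 : p ≠ 2) (b : ZMod p) (hb : b ≠ 0) (s : ZMod p) (hs : s ≠ 0) (u : Us p B) :
    wt α (scal α b hb s hs u) = wt α u :=
  wt_comp α (phi b hb) (chi α b hb) (kap s hs) (fun v j => chi_iota α b hb (v, j))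
    (prod_sign_chi α hp2 b hb) u

theorem scal_inv (b : ZMod p) (hb : b ≠ 0) (s : ZMod p) (hs : s ≠ 0) (u : Us p B) :
    InvG α b s (scal α b hb s hs u) ↔ Inv1 u := by
  rw [← invG_one α]
  unfold InvG scal
  constructor
  · intro h y r
    obtain ⟨r', hr'⟩ : ∃ r' : Vx p × Cs p B, (phi b hb r'.1, chi α b hb r'.1 r'.2) = r := by
      refine ⟨((phi b hb).symm r.1, (chi α b hb ((phi b hb).symm r.1)).symm r.2), ?_⟩
      simp
    have h1 := h y r'
    rw [chi_mt, hr', ← kap_sh] at h1
    have h2 := (kap s hs).injective h1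
    rw [one_mul, mul_one]
    exact h2
  · intro h y r
    rw [chi_mt, ← kap_sh]
    congr 1
    have h2 := h y (phi b hb r.1, chi α b hb r.1 r.2)
    rw [one_mul, mul_one] at h2
    exact h2

theorem scal_bij (b : ZMod p) (hb : b ≠ 0) (s : ZMod p) (hs : s ≠ 0) :
    Function.Bijective (scal α b hb s hs) := by
  rw [← Finite.injective_iff_bijective]
  intro u u' h
  funext r
  obtain ⟨r', hr'⟩ : ∃ r' : Vx p × Cs p B, (phi b hb r'.1, chi α b hb r'.1 r'.2) = r := by
    refine ⟨((phi b hb).symm r.1, (chi α b hb ((phi b hb).symm r.1)).symm r.2), ?_⟩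
    simp
  have h1 := congrFun h r'
  unfold scal at h1
  rw [hr'] at h1
  exact (kap s hs).injective h1

open Classical in
theorem sum_invG (hp2 : p ≠ 2) (b : ZMod p) (hb : b ≠ 0) (s : ZMod p) (hs : s ≠ 0) :
    ∑ u ∈ univ.filter (fun u : Us p B => InvG α b s u), wt α u =
      ∑ u ∈ univ.filter (fun u : Us p B => Inv1 u), wt α u := by
  rw [Finset.sum_filter, Finset.sum_filter]
  symm
  apply Fintype.sum_equiv (Equiv.ofBijective _ (scal_bij α b hb s hs))
  intro u
  simp only [Equiv.ofBijective_apply]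
  by_cases h : Inv1 u
  · rw [if_pos h, if_pos ((scal_inv α b hb s hs u).2 h), wt_scal α hp2]
  · rw [if_neg h, if_neg (fun h2 => h ((scal_inv α b hb s hs u).1 h2))]

end Pool.Agent.H604R2.LEC2
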