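import Pool.Agent.H604R2.LEC2.Full

/-!
# The signed number of 1-factorisations of `K_{2p}` modulo `p ^ 3`, continued
-/

set_option autoImplicit false
set_option linter.unusedSectionVars false

namespace Pool.Agent.H604R2.LEC2

open Finset Pool.Agent.H604R2.LEC

variable {p : ℕ} [Fact p.Prime] {B : Type} [Fintype B] [DecidableEq B] (α : Option B ≃ ZMod p)

/-- equivariance under one element -/
def Eq1 (t : ZMod p × ZMod p) (s : ZMod p) (u : Us p B) : Prop :=
  ∀ r, u (mt α t r) = sh s (u r)

theorem eq1_of_act {g : (ZMod p × ZMod p) × ZMod p} {u : Us p B} (h : act2 α g u = u) :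
    Eq1 α g.1 g.2 u := by
  intro r
  have h1 := congrFun h (mt α g.1 r)
  unfold act2 at h1
  rw [← mt_add, neg_add_cancel, mt_zero] at h1
  exact h1.symm

theorem act_of_eq1 {g : (ZMod p × ZMod p) × ZMod p} {u : Us p B} (h : Eq1 α g.1 g.2 u) :
    act2 α g u = u := by
  funext σ
  unfold act2
  rw [← h, ← mt_add, add_neg_cancel, mt_zero]

theorem eq1_iter {t : ZMod p × ZMod p} {s : ZMod p} {u : Us p B} (h : Eq1 α t s u) (n : ℕ) :
    Eq1 α (n * t.1, n * t.2) (n * s) u := by
  induction n with
  | zero =>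
    intro r
    have h1 : ((((0 : ℕ) : ZMod p) * t.1, ((0 : ℕ) : ZMod p) * t.2) : ZMod p × ZMod p) = 0 := by
      simp
    rw [h1, mt_zero, Nat.cast_zero, zero_mul, sh_zero]
  | succ n ih =>
    intro r
    have h1 : ((((n + 1 : ℕ) : ZMod p) * t.1, ((n + 1 : ℕ) : ZMod p) * t.2) : ZMod p × ZMod p) =
        (n * t.1, n * t.2) + t := by
      refine Prod.ext ?_ ?_
      · simp
        ring
      · simp
        ring
    rw [h1, mt_add, ih, h, ← sh_add]
    congr 2
    push_cast
    ring

theorem eq1_mul {t : ZMod p × ZMod p} {s : ZMod p} {u : Us p B} (h : Eq1 α t s u) (c : ZMod p) :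
    Eq1 α (c * t.1, c * t.2) (c * s) u := by
  have h1 := eq1_iter α h c.val
  rw [ZMod.natCast_zmod_val] at h1
  exact h1

include α in
theorem card_B : Fintype.card B + 1 = p := by
  rw [← Fintype.card_option, Fintype.card_congr α, ZMod.card]

/-- the block which is fixed -/
def sel (i : Bool) (t : ZMod p × ZMod p) : ZMod p := if i then t.2 else t.1

theorem parity (hp2 : p ≠ 2) {u : Us p B} (hw : wt α u ≠ 0) {t : ZMod p × ZMod p} {s : ZMod p}
    (h : Eq1 α t s u) (i : Bool) (hi : sel i t = 0) : t = 0 ∧ s = 0 := by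
  have hb := bij_of_wt hw
  have hc := comp_of_wt hw
  have hvx : ∀ x : ZMod p, tv t (x, i) = (x, i) := by
    intro x
    unfold sel at hi
    simp only [tv, Equiv.coe_fn_mk, hi, add_zero]
  by_cases ht : t.2 - t.1 = 0
  · have h0 : t = 0 := by
      have h1 : t.2 = t.1 := sub_eq_zero.1 ht
      unfold sel at hi
      cases i
      · simp only [Bool.false_eq_true, if_false] at hi
        exact Prod.ext hi (h1.trans hi)
      · simp only [if_true] at hi
        exact Prod.ext (h1.symm.trans hi) hi
    refine ⟨h0, ?_⟩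
    obtain ⟨j, hj⟩ := exists_zero hw (0, false)
    have h1 := h ((0, false), j)
    rw [h0, mt_zero, hj] at h1
    simpa using h1.symm
  · exfalso
    by_cases hs : s = 0
    · have h1 := h ((0, i), Sum.inr none)
      simp only [mt] at h1
      rw [hvx, hs, sh_zero, ss_inr] at h1
      have h2 := Sum.inr.inj ((hb (0, i)).1 h1)
      have h3 := congrArg α h2
      rw [Equiv.apply_symm_apply] at h3
      exact ht (by simpa using h3)
    · have hpure : ∀ x d, ∃ b, u ((x, i), Sum.inl d) = Sum.inr b := by
        intro x d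
        have h1 := h ((x, i), Sum.inl d)
        simp only [mt] at h1
        rw [hvx, ss_inl] at h1
        rcases hu : u ((x, i), Sum.inl d) with y | b
        · rw [hu, sh_inl] at h1
          have h2 := Sum.inl.inj h1
          exact absurd (by simpa using h2) hs
        · exact ⟨b, rfl⟩
      choose g hg using hpure
      have hgb : ∀ x, Function.Surjective (g x) := by
        intro x
        have h1 : Function.Injective (g x) := by
          intro a b hab
          have h2 : u ((x, i), Sum.inl a) = u ((x, i), Sum.inl b) := by rw [hg, hg, hab]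
          exact Sum.inl.inj ((hb (x, i)).1 h2)
        have h2 : Fintype.card (Nz p) = Fintype.card B := by
          rw [Fintype.card_subtype_compl, Fintype.card_subtype_eq, ZMod.card]
          have := card_B α
          omega
        exact ((Fintype.bijective_iff_injective_and_card _).2 ⟨h1, h2⟩).2
      have hne : Nonempty B := by
        rw [← Fintype.card_pos_iff]
        have := card_B α
        have := (Fact.out : p.Prime).two_le
        omega
      obtain ⟨b0⟩ := hne
      have hd : ∀ x, ∃ d, g x d = b0 := fun x => hgb x b0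
      choose d hd using hd
      have hinv : ∀ x, (x + (d x).1) + (d (x + (d x).1)).1 = x := by
        intro x
        have h1 := hc ((x, i), Sum.inl (d x))
        simp only [iota] at h1
        rw [hg x, hd] at h1
        have h2 : u ((x + (d x).1, i), Sum.inl (d (x + (d x).1))) = Sum.inr b0 := by
          rw [hg, hd]
        have h3 := (hb (x + (d x).1, i)).1 (h2.trans h1.symm)
        have h4 := Sum.inl.inj h3
        rw [h4]
        simp [nneg]
      let m : Equiv.Perm (ZMod p) := ⟨fun x => x + (d x).1, fun x => x + (d x).1, hinv, hinv⟩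
      have hm2 : m ^ 2 = 1 := by
        ext1 x
        rw [pow_two, Equiv.Perm.mul_apply]
        exact hinv x
      have h5 := Equiv.Perm.two_dvd_card_support hm2
      have h6 : m.support = univ := by
        ext x
        simp only [Equiv.Perm.mem_support, Finset.mem_univ, iff_true]
        intro h7
        have h8 : x + (d x).1 = x := h7
        exact (d x).2 (by simpa using h8)
      rw [h6, Finset.card_univ, ZMod.card] at h5
      exact hp2 ((Nat.prime_dvd_prime_iff_eq Nat.prime_two (Fact.out : p.Prime)).1 h5).symm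

theorem not_invG_zero (hp2 : p ≠ 2) {u : Us p B} (hw : wt α u ≠ 0) (b : ZMod p) :
    ¬ InvG α b 0 u := by
  intro hi
  have hc := comp_of_wt hw
  have h1 := hc ((0, false), Sum.inl ⟨1, one_ne_zero⟩)
  simp only [iota] at h1
  have h2 := hi 1 ((0, false), Sum.inl (nneg ⟨1, one_ne_zero⟩))
  rw [mul_zero, sh_zero] at h2
  have h3 : mt α (1, b * 1) (((0, false), Sum.inl (nneg ⟨1, one_ne_zero⟩)) : Vx p × Cs p B) =
      ((0 + 1, false), Sum.inl (nneg ⟨1, one_ne_zero⟩)) := by
    simp [mt, tv]
  rw [h3] at h2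
  rw [h2] at h1
  have h4 := (bij_of_wt hw (0, false)).1 h1
  have h5 := Subtype.ext_iff.1 (Sum.inl.inj h4)
  simp only [nneg] at h5
  apply two_ne (p := p) hp2
  linear_combination -h5

theorem invG_unique (hp2 : p ≠ 2) {u : Us p B} (hw : wt α u ≠ 0) {b s b' s' : ZMod p}
    (h1 : InvG α b s u) (h2 : InvG α b' s' u) : b' = b ∧ s' = s := by
  have h3 : Eq1 α (0, b' - b) (s' - s) u := by
    intro r'
    obtain ⟨r, rfl⟩ : ∃ r, mt α (1, b) r = r' :=
      ⟨mt α (-(1, b)) r', by rw [← mt_add, add_neg_cancel, mt_zero]⟩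
    have h4 := h1 1 r
    have h5 := h2 1 r
    rw [mul_one, one_mul] at h4 h5
    rw [← mt_add]
    have h6 : ((0, b' - b) + (1, b) : ZMod p × ZMod p) = (1, b') := by
      refine Prod.ext ?_ ?_
      · simp
      · simp
    rw [h6, h5, h4, ← sh_add]
    congr 2
    ring
  obtain ⟨h4, h5⟩ := parity α hp2 hw h3 false rfl
  exact ⟨sub_eq_zero.1 (Prod.ext_iff.1 h4).2, sub_eq_zero.1 h5⟩

/-- free orbits -/
def Free2 (u : Us p B) : Prop := ∀ g : (ZMod p × ZMod p) × ZMod p, act2 α g u = u → g = 0

theorem nonfree2_iff (hp2 : p ≠ 2) {u : Us p B} (hw : wt α u ≠ 0) :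
    ¬ Free2 α u ↔ ∃ b s : ZMod p, b ≠ 0 ∧ s ≠ 0 ∧ InvG α b s u := by
  constructor
  · intro hn
    unfold Free2 at hn
    push Not at hn
    obtain ⟨g, hg, hg0⟩ := hn
    have he := eq1_of_act α hg
    have h1 : g.1.1 ≠ 0 := by
      intro h0
      obtain ⟨h2, h3⟩ := parity α hp2 hw he false h0
      exact hg0 (Prod.ext h2 h3)
    have h2 : g.1.2 ≠ 0 := by
      intro h0
      obtain ⟨h2, h3⟩ := parity α hp2 hw he true h0
      exact hg0 (Prod.ext h2 h3)
    have hi : InvG α (g.1.2 / g.1.1) (g.2 / g.1.1) u := by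
      intro y r
      have h3 := eq1_mul α he (y / g.1.1) r
      have h4 : ((y / g.1.1 * g.1.1, y / g.1.1 * g.1.2) : ZMod p × ZMod p) =
          (y, g.1.2 / g.1.1 * y) := by
        refine Prod.ext ?_ ?_
        · simp only
          rw [div_mul_cancel₀ _ h1]
        · simp only
          ring
      rw [h4] at h3
      rw [h3]
      congr 2
      ring
    refine ⟨g.1.2 / g.1.1, g.2 / g.1.1, div_ne_zero h2 h1, ?_, hi⟩
    intro h0
    rw [h0] at hi
    exact not_invG_zero α hp2 hw _ hi
  · rintro ⟨b, s, hb, hs, hi⟩ hn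
    have h1 : act2 α ((1, b), s) u = u := by
      apply act_of_eq1
      intro r
      have h2 := hi 1 r
      rw [mul_one, one_mul] at h2
      exact h2
    have h2 := hn _ h1
    exact hs (Prod.ext_iff.1 h2).2

/-- The signed number of colourings modulo `p ^ 3`. -/
theorem FF_mod3 (hp2 : p ≠ 2) :
    ((p : ℤ) ^ 3) ∣ FF (rho p B) (iota α) -
      ((p : ℤ) - 1) ^ 2 * ((p : ℤ) * ((Fintype.card B + 1).factorial : ℤ) * TT p ^ 2) := by
  classical
  have h1 := dvd_sum_free (P := (ZMod p × ZMod p) × ZMod p) (X := Us p B) (act2 α)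
    (by
      intro u
      funext σ
      simp only [act2, Prod.fst_zero, Prod.snd_zero, neg_zero, mt_zero, sh_zero])
    (by
      intro g h u
      funext σ
      simp only [act2, Prod.fst_add, Prod.snd_add]
      rw [add_comm g.2, sh_add, neg_add_rev, mt_add])
    (wt α) (wt_act2 α hp2) (Free2 α) (fun _ => Iff.rfl)
  rw [Fintype.card_prod, Fintype.card_prod, ZMod.card] at h1
  have h2 : FF (rho p B) (iota α) =
      ∑ x ∈ univ.filter (fun x : Us p B => Free2 α x), wt α x +
      ∑ x ∈ univ.filter (fun x : Us p B => ¬ Free2 α x), wt α x := by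
    rw [FF_eq, Finset.sum_filter_add_sum_filter_not]
  have h3 : ∑ x ∈ univ.filter (fun x : Us p B => ¬ Free2 α x), wt α x =
      ∑ bs ∈ ((univ : Finset (ZMod p)).erase 0) ×ˢ ((univ : Finset (ZMod p)).erase 0),
        ∑ u ∈ univ.filter (fun u : Us p B => InvG α bs.1 bs.2 u), wt α u := by
    simp_rw [Finset.sum_filter]
    rw [Finset.sum_comm]
    apply Finset.sum_congr rfl
    intro u _
    by_cases hw : wt α u = 0
    · simp [hw]
    · by_cases hn : ¬ Free2 α u
      · rw [if_pos hn]
        obtain ⟨b, s, hb, hs, hi⟩ := (nonfree2_iff α hp2 hw).1 hn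
        rw [Finset.sum_eq_single (b, s)]
        · rw [if_pos hi]
        · rintro ⟨b', s'⟩ _ hne
          rw [if_neg]
          intro h
          obtain ⟨h5, h6⟩ := invG_unique α hp2 hw hi h
          exact hne (Prod.ext h5 h6)
        · intro h
          exfalso
          apply h
          rw [Finset.mem_product]
          exact ⟨Finset.mem_erase.2 ⟨hb, Finset.mem_univ _⟩,
            Finset.mem_erase.2 ⟨hs, Finset.mem_univ _⟩⟩
      · rw [if_neg hn]
        symm
        apply Finset.sum_eq_zero
        rintro ⟨b, s⟩ hbs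
        rw [Finset.mem_product] at hbs
        rw [if_neg]
        intro hi
        exact hn ((nonfree2_iff α hp2 hw).2 ⟨b, s, Finset.ne_of_mem_erase hbs.1,
          Finset.ne_of_mem_erase hbs.2, hi⟩)
  have h4 : ∑ bs ∈ ((univ : Finset (ZMod p)).erase 0) ×ˢ ((univ : Finset (ZMod p)).erase 0),
        ∑ u ∈ univ.filter (fun u : Us p B => InvG α bs.1 bs.2 u), wt α u =
      ((p : ℤ) - 1) ^ 2 * ((p : ℤ) * ((Fintype.card B + 1).factorial : ℤ) * TT p ^ 2) := by
    rw [Finset.sum_congr rfl (fun bs hbs => sum_invG α hp2 bs.1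
      (Finset.ne_of_mem_erase (Finset.mem_product.1 hbs).1) bs.2
      (Finset.ne_of_mem_erase (Finset.mem_product.1 hbs).2)),
      Finset.sum_const, Finset.card_product, Finset.card_erase_of_mem (Finset.mem_univ _),
      Finset.card_univ, ZMod.card, nsmul_eq_mul, sum_inv1 hp2]
    have : ((p - 1 : ℕ) : ℤ) = (p : ℤ) - 1 := by
      have := (Fact.out : p.Prime).one_le
      push_cast [this]
      rfl
    rw [Nat.cast_mul, this, pow_two ((p : ℤ) - 1)]
  rw [h2, h3, h4, add_sub_cancel_right]
  have h5 : ((p * p * p : ℕ) : ℤ) = (p : ℤ) ^ 3 := by push_cast; ring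
  rw [h5] at h1
  exact h1

/-- The signed number is not zero when all mixed differences are used. -/
theorem FF_ne_full (hp2 : p ≠ 2) : FF (rho p B) (iota α) ≠ 0 := by
  intro h0
  have h1 := FF_mod3 α hp2
  rw [h0, zero_sub, dvd_neg] at h1
  have hp : (p : ℤ) ≠ 0 := by exact_mod_cast (Fact.out : p.Prime).ne_zero
  have hpp : Prime (p : ℤ) := Nat.prime_iff_prime_int.1 (Fact.out : p.Prime)
  have hfac : (Fintype.card B + 1).factorial = p * (Fintype.card B).factorial := by
    rw [Nat.factorial_succ, card_B α]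
  have h2 : (p : ℤ) ∣ ((p : ℤ) - 1) ^ 2 * (((Fintype.card B).factorial : ℤ) * TT p ^ 2) := by
    have h3 : ((p : ℤ) - 1) ^ 2 * ((p : ℤ) * ((Fintype.card B + 1).factorial : ℤ) * TT p ^ 2) =
        (p : ℤ) ^ 2 * (((p : ℤ) - 1) ^ 2 * (((Fintype.card B).factorial : ℤ) * TT p ^ 2)) := by
      rw [hfac]
      push_cast
      ring
    rw [h3, pow_succ] at h1
    exact Int.dvd_of_mul_dvd_mul_left (pow_ne_zero 2 hp) h1
  rcases hpp.dvd_or_dvd h2 with h3 | h3
  · have h3 := hpp.dvd_of_dvd_pow h3
    have h4 : (p : ℤ) ∣ 1 := by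
      have := dvd_sub_comm.1 h3
      have h5 : (p : ℤ) ∣ (1 - (p : ℤ)) + p := dvd_add this (dvd_refl _)
      simpa using h5
    exact hpp.not_dvd_one h4
  · rcases hpp.dvd_or_dvd h3 with h4 | h4
    · have h5 : p ∣ (Fintype.card B).factorial := by exact_mod_cast h4
      have h6 := (Fact.out : p.Prime).dvd_factorial.1 h5
      have := card_B α
      omega
    · have h5 := hpp.dvd_of_dvd_pow h4
      apply TT_ne (p := p) hp2
      rw [ZMod.intCast_zmod_eq_zero_iff_dvd]
      exact h5

end Pool.Agent.H604R2.LEC2
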