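import Pool.Agent.H604R2.LEC2.Slots

/-!
# Two cliques of prime order joined by a circulant bipartite graph
-/

set_option autoImplicit false
set_option linter.unusedSectionVars false

namespace Pool.Agent.H604R2.LEC2

open Finset Pool.Agent.H604R2.LEC

variable {p : ℕ} [Fact p.Prime] {B : Type} [Fintype B] [DecidableEq B]

/-- nonzero residues -/
abbrev Nz (p : ℕ) : Type := {x : ZMod p // x ≠ 0}

/-- vertices -/
abbrev Vx (p : ℕ) : Type := ZMod p × Bool

/-- slots at a vertex -/
abbrev Cs (p : ℕ) (B : Type) : Type := Nz p ⊕ Option B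

/-- colours -/
abbrev Ks (p : ℕ) (B : Type) : Type := ZMod p ⊕ B

/-- negation of nonzero residues -/
def nneg (d : Nz p) : Nz p := ⟨-d.1, neg_ne_zero.2 d.2⟩

theorem nneg_nneg (d : Nz p) : nneg (nneg d) = d := by
  apply Subtype.ext
  simp [nneg]

/-- the involution on slots -/
def iota (α : Option B → ZMod p) : Vx p × Cs p B → Vx p × Cs p B
  | ((x, i), Sum.inl d) => ((x + d.1, i), Sum.inl (nneg d))
  | ((x, false), Sum.inr o) => ((x + α o, true), Sum.inr o)
  | ((x, true), Sum.inr o) => ((x - α o, false), Sum.inr o)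

theorem iota_iota (α : Option B → ZMod p) (s : Vx p × Cs p B) : iota α (iota α s) = s := by
  obtain ⟨⟨x, i⟩, d | o⟩ := s
  · simp only [iota, nneg_nneg]
    simp [nneg]
  · cases i <;> simp [iota]

theorem iota_ne (α : Option B → ZMod p) (s : Vx p × Cs p B) : iota α s ≠ s := by
  obtain ⟨⟨x, i⟩, d | o⟩ := s
  · intro h
    have h1 := congrArg (fun s => s.1.1) h
    simp only [iota] at h1
    exact d.2 (by simpa using h1)
  · intro h
    have h1 := congrArg (fun s => s.1.2) h
    cases i <;> simp [iota] at h1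

/-- translation of the colours -/
def sh (y : ZMod p) : Equiv.Perm (Ks p B) := Equiv.sumCongr (Equiv.addRight y) (Equiv.refl B)

@[simp] theorem sh_inl (y x : ZMod p) : sh (B := B) y (Sum.inl x) = Sum.inl (x + y) := rfl

@[simp] theorem sh_inr (y : ZMod p) (b : B) : sh (B := B) y (Sum.inr b) = Sum.inr b := rfl

theorem sh_add (y z : ZMod p) (k : Ks p B) : sh (y + z) k = sh z (sh y k) := by
  rcases k with x | b
  · simp [add_assoc]
  · simp

theorem sh_zero (k : Ks p B) : sh (0 : ZMod p) k = k := by
  rcases k with x | b <;> simp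

theorem sign_addRight (hp2 : p ≠ 2) (y : ZMod p) : Equiv.Perm.sign (Equiv.addRight y) = 1 := by
  have hodd : Odd p := (Fact.out : p.Prime).odd_of_ne_two hp2
  have h1 : ∀ n : ℕ, ∀ x : ZMod p, ((Equiv.addRight y : Equiv.Perm (ZMod p)) ^ n) x = x + n * y := by
    intro n
    induction n with
    | zero => intro x; simp
    | succ n ih =>
      intro x
      rw [pow_succ, Equiv.Perm.mul_apply, ih]
      simp only [Equiv.coe_addRight]
      push_cast
      ring
  have h2 : (Equiv.addRight y : Equiv.Perm (ZMod p)) ^ p = 1 := by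
    ext x
    rw [h1]
    simp
  have h3 := congrArg Equiv.Perm.sign h2
  rw [map_pow, map_one] at h3
  rcases Int.units_eq_one_or (Equiv.Perm.sign (Equiv.addRight y : Equiv.Perm (ZMod p))) with h | h
  · exact h
  · rw [h, hodd.neg_one_pow] at h3
    exact absurd h3 (by decide)

theorem sign_sh (hp2 : p ≠ 2) (y : ZMod p) : Equiv.Perm.sign (sh (B := B) y) = 1 := by
  unfold sh
  rw [Equiv.Perm.sign_sumCongr, sign_addRight hp2]
  simp

/-- the reference bijection between slots and colours -/
def rho (p : ℕ) (B : Type) [Fact p.Prime] : Cs p B ≃ Ks p B where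
  toFun s := match s with
    | Sum.inl d => Sum.inl d.1
    | Sum.inr none => Sum.inl 0
    | Sum.inr (some b) => Sum.inr b
  invFun k := match k with
    | Sum.inl x => if h : x = 0 then Sum.inr none else Sum.inl ⟨x, h⟩
    | Sum.inr b => Sum.inr (some b)
  left_inv := by
    rintro (d | _ | b)
    · simp [d.2]
    · simp
    · simp
  right_inv := by
    rintro (x | b)
    · by_cases h : x = 0
      · simp [h]
      · simp [h]
    · simp

@[simp] theorem rho_inl (d : Nz p) : rho p B (Sum.inl d) = Sum.inl d.1 := rfl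
@[simp] theorem rho_none : rho p B (Sum.inr none) = Sum.inl 0 := rfl
@[simp] theorem rho_some (b : B) : rho p B (Sum.inr (some b)) = Sum.inr b := rfl

/-- signs of the standard bijections -/
theorem sgr_std (hp2 : p ≠ 2) (y : ZMod p) (f : Equiv.Perm (Nz p)) (ν : Equiv.Perm (Option B)) :
    sgr (rho p B) (fun j => sh y (rho p B (Equiv.sumCongr f ν j))) =
      (Equiv.Perm.sign f : ℤ) * (Equiv.Perm.sign ν : ℤ) := by
  have h1 : (fun j => sh y (rho p B (Equiv.sumCongr f ν j))) =
      ⇑(((Equiv.sumCongr f ν).trans (rho p B)).trans (sh y)) := rfl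
  rw [h1, sgr_equiv]
  have h2 : ((((Equiv.sumCongr f ν).trans (rho p B)).trans (sh y)).trans (rho p B).symm) =
      ((rho p B).symm.permCongr (sh y)) * (Equiv.sumCongr f ν) := by
    ext x
    simp [Equiv.permCongr_apply]
  rw [h2, Equiv.Perm.sign_mul, Equiv.Perm.sign_permCongr, sign_sh hp2, one_mul]
  have h3 := Equiv.Perm.sign_sumCongr f ν
  rw [h3]
  push_cast
  rfl

/-- starters -/
def IsSt (f : Equiv.Perm (Nz p)) : Prop := ∀ d : Nz p, (f d).1 = (f (nneg d)).1 + d.1

/-- The structure of the bijections satisfying the condition on pure slots. -/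
theorem structure_thm (hp2 : p ≠ 2) (u : Cs p B → Ks p B) (hu : Function.Bijective u)
    (h : ∀ d : Nz p, u (Sum.inl d) = sh d.1 (u (Sum.inl (nneg d)))) :
    ∃ (y : ZMod p) (f : Equiv.Perm (Nz p)) (ν : Equiv.Perm (Option B)), IsSt f ∧
      ∀ j, u j = sh y (rho p B (Equiv.sumCongr f ν j)) := by
  have hne : ∀ d : Nz p, d ≠ nneg d := by
    intro d hd
    have h1 := congrArg Subtype.val hd
    simp only [nneg] at h1
    apply d.2
    have h2 : (2 : ZMod p) * d.1 = 0 := by
      rw [two_mul]
      nth_rewrite 2 [h1]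
      ring
    rcases mul_eq_zero.1 h2 with h3 | h3
    · exfalso
      have h4 : ((2 : ℕ) : ZMod p) = 0 := by exact_mod_cast h3
      rw [ZMod.natCast_eq_zero_iff] at h4
      exact hp2 ((Nat.prime_dvd_prime_iff_eq (Fact.out : p.Prime) Nat.prime_two).1 h4)
    · exact h3
  -- pure slots get moving colours
  have hpure : ∀ d : Nz p, ∃ x : ZMod p, u (Sum.inl d) = Sum.inl x := by
    intro d
    rcases hx : u (Sum.inl d) with x | b
    · exact ⟨x, rfl⟩
    · exfalso
      have h1 := h (nneg d)
      rw [nneg_nneg, hx, sh_inr] at h1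
      have h2 := hu.1 (h1.trans hx.symm)
      exact hne d (Sum.inl.inj h2).symm
  choose g hg using hpure
  have hginj : Function.Injective g := by
    intro a b hab
    have : u (Sum.inl a) = u (Sum.inl b) := by rw [hg, hg, hab]
    exact Sum.inl.inj (hu.1 this)
  -- one moving colour is missed
  have hmiss : ∃ y, ∀ d, g d ≠ y := by
    by_contra hcon
    push Not at hcon
    have h1 := Fintype.card_le_of_surjective g hcon
    rw [Fintype.card_subtype_compl, Fintype.card_subtype_eq] at h1
    have h2 : 0 < Fintype.card (ZMod p) := Fintype.card_pos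
    omega
  obtain ⟨y, hy⟩ := hmiss
  have hgsurj : ∀ x, x ≠ y → ∃ d, g d = x := by
    have h1 : Function.Injective (fun d : Nz p => (⟨g d, hy d⟩ : {x : ZMod p // x ≠ y})) := by
      intro a b hab
      exact hginj (Subtype.ext_iff.1 hab)
    have h2 : Fintype.card (Nz p) = Fintype.card {x : ZMod p // x ≠ y} := by
      rw [Fintype.card_subtype_compl, Fintype.card_subtype_compl, Fintype.card_subtype_eq,
        Fintype.card_subtype_eq]
    have h3 := (Fintype.bijective_iff_injective_and_card _).2 ⟨h1, h2⟩
    intro x hx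
    obtain ⟨d, hd⟩ := h3.2 ⟨x, hx⟩
    exact ⟨d, Subtype.ext_iff.1 hd⟩
  have hfne : ∀ d, g d - y ≠ 0 := fun d => sub_ne_zero.2 (hy d)
  let f0 : Nz p → Nz p := fun d => ⟨g d - y, hfne d⟩
  have hf0 : Function.Injective f0 := by
    intro a b hab
    have h1 := Subtype.ext_iff.1 hab
    simp only [f0] at h1
    exact hginj (sub_left_injective h1)
  let f : Equiv.Perm (Nz p) := Equiv.ofBijective f0 (Finite.injective_iff_bijective.1 hf0)
  -- the mixed part
  let ν0 : Option B → Option B := fun o => match u (Sum.inr o) with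
    | Sum.inl _ => none
    | Sum.inr b => some b
  have hmix : ∀ o x, u (Sum.inr o) = Sum.inl x → x = y := by
    intro o x hx
    by_contra hne2
    obtain ⟨d, hd⟩ := hgsurj x hne2
    have h1 : u (Sum.inl d) = u (Sum.inr o) := by rw [hg, hd, hx]
    exact absurd (hu.1 h1) (by simp)
  have hν : ∀ o, u (Sum.inr o) = sh y (rho p B (Sum.inr (ν0 o))) := by
    intro o
    rcases hx : u (Sum.inr o) with x | b
    · have h1 := hmix o x hx
      have h2 : ν0 o = none := by simp only [ν0, hx]
      rw [h2, h1]
      simp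
    · have h2 : ν0 o = some b := by simp only [ν0, hx]
      rw [h2]
      simp
  have hν0 : Function.Injective ν0 := by
    intro a b hab
    have h1 : u (Sum.inr a) = u (Sum.inr b) := by rw [hν, hν, hab]
    exact Sum.inr.inj (hu.1 h1)
  let ν : Equiv.Perm (Option B) := Equiv.ofBijective ν0 (Finite.injective_iff_bijective.1 hν0)
  refine ⟨y, f, ν, ?_, ?_⟩
  · intro d
    have h1 := h d
    rw [hg, hg, sh_inl] at h1
    have h2 := Sum.inl.inj h1
    change g d - y = g (nneg d) - y + d.1
    rw [h2]
    ring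
  · rintro (d | o)
    · rw [hg]
      change _ = sh y (rho p B (Sum.inl (f0 d)))
      rw [rho_inl, sh_inl]
      congr 1
      change g d = g d - y + y
      ring
    · exact hν o

end Pool.Agent.H604R2.LEC2
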