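import Pool.Agent.H604R2.LEC2.GA

/-!
# Colourings invariant under a translation
-/

set_option autoImplicit false
set_option linter.unusedSectionVars false

namespace Pool.Agent.H604R2.LEC2

open Finset Pool.Agent.H604R2.LEC

section gen

variable {C K : Type} [Fintype C] [DecidableEq C] [Fintype K] [DecidableEq K]

theorem sgr_comp_left (ρ : C ≃ K) (τ : Equiv.Perm K) (f : C → K) :
    sgr ρ (fun j => τ (f j)) = (Equiv.Perm.sign τ : ℤ) * sgr ρ f := by
  by_cases hb : Function.Bijective f
  · obtain ⟨g, rfl⟩ : ∃ g : C ≃ K, f = g := ⟨Equiv.ofBijective f hb, rfl⟩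
    have h1 : (fun j => τ (g j)) = ⇑(g.trans τ) := rfl
    rw [h1, sgr_equiv, sgr_equiv]
    have h2 : (g.trans τ).trans ρ.symm = (ρ.symm.permCongr τ) * (g.trans ρ.symm) := by
      ext x
      simp [Equiv.permCongr_apply]
    rw [h2, Equiv.Perm.sign_mul, Equiv.Perm.sign_permCongr]
    push_cast
    rfl
  · rw [sgr_of_not _ _ hb, sgr_of_not, mul_zero]
    intro h
    apply hb
    have h2 : f = τ.symm ∘ (fun j => τ (f j)) := by
      funext j
      simp
    rw [h2]
    exact τ.symm.bijective.comp h

theorem sgr_comp_right (ρ : C ≃ K) (ψ : Equiv.Perm C) (f : C → K) :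
    sgr ρ (fun j => f (ψ j)) = (Equiv.Perm.sign ψ : ℤ) * sgr ρ f := by
  by_cases hb : Function.Bijective f
  · obtain ⟨g, rfl⟩ : ∃ g : C ≃ K, f = g := ⟨Equiv.ofBijective f hb, rfl⟩
    have h1 : (fun j => g (ψ j)) = ⇑((ψ : C ≃ C).trans g) := rfl
    rw [h1, sgr_equiv, sgr_equiv]
    have h2 : ((ψ : C ≃ C).trans g).trans ρ.symm = (g.trans ρ.symm : Equiv.Perm C) * ψ := by
      ext x
      simp
    rw [h2, Equiv.Perm.sign_mul]
    push_cast
    ring
  · rw [sgr_of_not _ _ hb, sgr_of_not, mul_zero]
    intro h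
    apply hb
    have h2 : f = (fun j => f (ψ j)) ∘ ψ.symm := by
      funext j
      simp
    rw [h2]
    exact h.comp ψ.symm.bijective

end gen

variable {p : ℕ} [Fact p.Prime] {B : Type} [Fintype B] [DecidableEq B]

/-- functions on slots -/
abbrev Us (p : ℕ) (B : Type) : Type := Vx p × Cs p B → Ks p B

/-- compatible with the involution -/
def Comp (α : Option B → ZMod p) (u : Us p B) : Prop := ∀ s, u (iota α s) = u s

open Classical in
/-- the weight of a function -/
noncomputable def wt (α : Option B → ZMod p) (u : Us p B) : ℤ :=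
  if Comp α u then ∏ v, sgr (rho p B) (fun j => u (v, j)) else 0

theorem FF_eq (α : Option B → ZMod p) : FF (rho p B) (iota α) = ∑ u : Us p B, wt α u := by
  classical
  unfold FF wt
  rw [← Finset.sum_filter]
  apply Finset.sum_congr
  · ext u
    rw [Finset.mem_filter, Finset.mem_filter]
    rfl
  · intro _ _
    rfl

theorem comp_of_wt {α : Option B → ZMod p} {u : Us p B} (h : wt α u ≠ 0) : Comp α u := by
  by_contra hc
  unfold wt at h
  rw [if_neg hc] at h
  exact h rfl

theorem bij_of_wt {α : Option B → ZMod p} {u : Us p B} (h : wt α u ≠ 0) (v : Vx p) :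
    Function.Bijective (fun j => u (v, j)) := by
  have hc := comp_of_wt h
  unfold wt at h
  rw [if_pos hc, Finset.prod_ne_zero_iff] at h
  by_contra hb
  exact h v (Finset.mem_univ _) (sgr_of_not _ _ hb)

theorem card_Vx : Fintype.card (Vx p) = 2 * p := by
  rw [Fintype.card_prod, ZMod.card, Fintype.card_bool, mul_comm]

/-- the weight is invariant under automorphisms -/
theorem wt_comp (α : Option B → ZMod p) (π : Equiv.Perm (Vx p)) (ψ : Vx p → Equiv.Perm (Cs p B))
    (τ : Equiv.Perm (Ks p B)) (hcomm : ∀ v j, (fun s : Vx p × Cs p B => (π s.1, ψ s.1 s.2))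
      (iota α (v, j)) = iota α (π v, ψ v j))
    (hsign : ∏ v, Equiv.Perm.sign (ψ v) = 1) (u : Us p B) :
    wt α (fun s => τ (u (π s.1, ψ s.1 s.2))) = wt α u := by
  have hsurj : ∀ t : Vx p × Cs p B, ∃ s : Vx p × Cs p B, (π s.1, ψ s.1 s.2) = t := by
    rintro ⟨v, j⟩
    refine ⟨(π.symm v, (ψ (π.symm v)).symm j), ?_⟩
    simp
  have hc : Comp α (fun s => τ (u (π s.1, ψ s.1 s.2))) ↔ Comp α u := by
    constructor
    · intro h t
      obtain ⟨⟨v, j⟩, rfl⟩ := hsurj t
      have h1 := h (v, j)
      simp only at h1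
      have h2 := τ.injective h1
      have h3 := hcomm v j
      simp only at h3
      rw [h3] at h2
      exact h2
    · rintro h ⟨v, j⟩
      have h3 := hcomm v j
      simp only at h3
      simp only
      rw [h3, h]
  unfold wt
  by_cases hcu : Comp α u
  · rw [if_pos hcu, if_pos (hc.2 hcu)]
    have h1 : ∀ v, sgr (rho p B) (fun j => τ (u (π v, ψ v j))) =
        (Equiv.Perm.sign τ : ℤ) * ((Equiv.Perm.sign (ψ v) : ℤ) *
          sgr (rho p B) (fun j => u (π v, j))) := by
      intro v
      rw [sgr_comp_left (rho p B) τ (fun j => u (π v, ψ v j)),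
        sgr_comp_right (rho p B) (ψ v) (fun j => u (π v, j))]
    rw [Finset.prod_congr rfl (fun v _ => h1 v), Finset.prod_mul_distrib, Finset.prod_mul_distrib,
      Finset.prod_const, Finset.card_univ, card_Vx, pow_mul]
    have h2 : (Equiv.Perm.sign τ : ℤ) ^ 2 = 1 := by
      rcases Int.units_eq_one_or (Equiv.Perm.sign τ) with h | h <;> rw [h] <;> simp
    have h3 : ∏ v, ((Equiv.Perm.sign (ψ v) : ℤˣ) : ℤ) = 1 := by
      rw [← Units.coe_prod, hsign]
      rfl
    rw [h2, one_pow, one_mul, h3, one_mul]
    exact Equiv.prod_comp π (fun v => sgr (rho p B) (fun j => u (v, j)))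
  · rw [if_neg hcu, if_neg (fun h => hcu (hc.1 h))]

/-- equivariant under the diagonal translation -/
def Inv1 (u : Us p B) : Prop :=
  ∀ (y x : ZMod p) (i : Bool) (j : Cs p B), u ((x + y, i), j) = sh y (u ((x, i), j))

open Classical in
/-- the signed number of starters -/
noncomputable def TT (p : ℕ) [Fact p.Prime] : ℤ :=
  ∑ f ∈ univ.filter (fun f : Equiv.Perm (Nz p) => IsSt f), (Equiv.Perm.sign f : ℤ)

theorem std_inj {y y' : ZMod p} {f f' : Equiv.Perm (Nz p)} {ν ν' : Equiv.Perm (Option B)}
    (h : ∀ j, sh y (rho p B (Equiv.sumCongr f ν j)) = sh y' (rho p B (Equiv.sumCongr f' ν' j))) :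
    y = y' ∧ f = f' ∧ ν = ν' := by
  have hν : ∀ o, ν o = ν' o := by
    intro o
    have h1 := h (Sum.inr o)
    simp only [Equiv.sumCongr_apply, Sum.map_inr] at h1
    rcases h2 : ν o with _ | b <;> rcases h3 : ν' o with _ | b' <;>
      simp [h2, h3] at h1 ⊢
    exact h1
  have hy : y = y' := by
    have h1 := h (Sum.inr (ν.symm none))
    simp only [Equiv.sumCongr_apply, Sum.map_inr] at h1
    rw [← hν, Equiv.apply_symm_apply] at h1
    simpa using h1
  refine ⟨hy, ?_, Equiv.ext hν⟩
  subst hy
  ext d : 2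
  have h1 := h (Sum.inl d)
  simpa using h1

/-- the standard invariant colourings -/
def std (α : Option B → ZMod p) (y : ZMod p) (ν : Equiv.Perm (Option B))
    (f : Bool → Equiv.Perm (Nz p)) : Us p B :=
  fun s => sh (s.1.1 + (y + if s.1.2 then 0 else α (ν.symm none)))
    (rho p B (Equiv.sumCongr (f s.1.2) ν s.2))

theorem comp_std (α : Option B → ZMod p) (y : ZMod p) (ν : Equiv.Perm (Option B))
    (f : Bool → Equiv.Perm (Nz p)) (hf : ∀ i, IsSt (f i)) : Comp α (std α y ν f) := by
  rintro ⟨⟨x, i⟩, d | o⟩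
  · simp only [iota, std, Equiv.sumCongr_apply, Sum.map_inl, rho_inl, sh_inl]
    congr 1
    rw [hf i d]
    cases i <;> simp <;> ring
  · cases i
    · simp only [iota, std, Equiv.sumCongr_apply, Sum.map_inr]
      rcases h : ν o with _ | b
      · have h2 : ν.symm none = o := by rw [← h]; simp
        rw [rho_none, sh_inl, sh_inl, h2]
        congr 1
        simp
        ring
      · rw [rho_some, sh_inr, sh_inr]
    · simp only [iota, std, Equiv.sumCongr_apply, Sum.map_inr]
      rcases h : ν o with _ | b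
      · have h2 : ν.symm none = o := by rw [← h]; simp
        rw [rho_none, sh_inl, sh_inl, h2]
        congr 1
        simp
      · rw [rho_some, sh_inr, sh_inr]

theorem inv1_std (α : Option B → ZMod p) (y : ZMod p) (ν : Equiv.Perm (Option B))
    (f : Bool → Equiv.Perm (Nz p)) : Inv1 (std α y ν f) := by
  intro z x i j
  simp only [std]
  rw [← sh_add]
  congr 2
  ring

theorem wt_std (hp2 : p ≠ 2) (α : Option B → ZMod p) (y : ZMod p) (ν : Equiv.Perm (Option B))
    (f : Bool → Equiv.Perm (Nz p)) (hf : ∀ i, IsSt (f i)) :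
    wt α (std α y ν f) = (Equiv.Perm.sign (f false) : ℤ) * (Equiv.Perm.sign (f true) : ℤ) := by
  have hodd : Odd p := (Fact.out : p.Prime).odd_of_ne_two hp2
  have hpow : ∀ a : ℤˣ, a ^ p = a := by
    intro a
    rcases Int.units_eq_one_or a with h | h
    · rw [h, one_pow]
    · rw [h, hodd.neg_one_pow]
  unfold wt
  rw [if_pos (comp_std α y ν f hf)]
  have h1 : ∀ v : Vx p, sgr (rho p B) (fun j => std α y ν f (v, j)) =
      ((Equiv.Perm.sign (f v.2) * Equiv.Perm.sign ν : ℤˣ) : ℤ) := by
    intro v
    have := sgr_std (B := B) hp2 (v.1 + (y + if v.2 then 0 else α (ν.symm none))) (f v.2) ν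
    rw [Units.val_mul]
    exact this
  rw [Finset.prod_congr rfl (fun v _ => h1 v), ← Units.coe_prod, ← Units.val_mul]
  congr 1
  rw [Fintype.prod_prod_type]
  simp only [Fintype.prod_bool]
  rw [Finset.prod_const, Finset.card_univ, ZMod.card, hpow]
  have h2 : Equiv.Perm.sign ν * Equiv.Perm.sign ν = 1 := Int.units_mul_self _
  calc Equiv.Perm.sign (f true) * Equiv.Perm.sign ν * (Equiv.Perm.sign (f false) * Equiv.Perm.sign ν)
      = Equiv.Perm.sign (f false) * Equiv.Perm.sign (f true) *
        (Equiv.Perm.sign ν * Equiv.Perm.sign ν) := by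
        simp only [mul_comm, mul_left_comm, mul_assoc]
    _ = _ := by rw [h2, mul_one]

open Classical in
/-- The signed number of invariant colourings. -/
theorem sum_inv1 (hp2 : p ≠ 2) (α : Option B → ZMod p) :
    ∑ u ∈ univ.filter (fun u : Us p B => Inv1 u), wt α u =
      (p : ℤ) * ((Fintype.card B + 1).factorial : ℤ) * TT p ^ 2 := by
  have h1 : ∑ u ∈ univ.filter (fun u : Us p B => Inv1 u), wt α u =
      ∑ u ∈ univ.filter (fun u : Us p B => Inv1 u ∧ wt α u ≠ 0), wt α u := by
    rw [← Finset.filter_filter, Finset.sum_filter_ne_zero]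
  rw [h1]
  have h2 : ∑ u ∈ univ.filter (fun u : Us p B => Inv1 u ∧ wt α u ≠ 0), wt α u =
      ∑ t ∈ (univ : Finset (ZMod p)) ×ˢ ((univ : Finset (Equiv.Perm (Option B))) ×ˢ
        ((univ.filter (fun f : Equiv.Perm (Nz p) => IsSt f)) ×ˢ
          (univ.filter (fun f : Equiv.Perm (Nz p) => IsSt f)))),
        (Equiv.Perm.sign t.2.2.1 : ℤ) * (Equiv.Perm.sign t.2.2.2 : ℤ) := by
    symm
    refine Finset.sum_bij (fun t _ => std α t.1 t.2.1 (fun i => if i then t.2.2.2 else t.2.2.1))
      ?_ ?_ ?_ ?_
    · rintro ⟨y, ν, f0, f1⟩ ht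
      simp only [Finset.mem_product, Finset.mem_univ, Finset.mem_filter, true_and] at ht
      rw [Finset.mem_filter]
      refine ⟨Finset.mem_univ _, inv1_std _ _ _ _, ?_⟩
      rw [wt_std hp2]
      · rw [← Units.val_mul]
        exact Units.ne_zero _
      · intro i
        cases i
        · exact ht.1
        · exact ht.2
    · rintro ⟨y, ν, f0, f1⟩ ht ⟨y', ν', f0', f1'⟩ ht' h
      have h3 := std_inj (y := y) (y' := y') (f := f1) (f' := f1') (ν := ν) (ν' := ν') (by
        intro j
        have := congrFun h ((0, true), j)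
        simpa [std] using this)
      obtain ⟨h4, h5, h6⟩ := h3
      subst h4 h5 h6
      have h7 := std_inj (y := y + α (ν.symm none)) (y' := y + α (ν.symm none)) (f := f0)
        (f' := f0') (ν := ν) (ν' := ν) (by
        intro j
        have := congrFun h ((0, false), j)
        simpa [std] using this)
      rw [h7.2.1]
    · intro u hu
      obtain ⟨-, hinv, hw⟩ := Finset.mem_filter.1 hu
      have hc := comp_of_wt hw
      have hb := bij_of_wt hw
      have hpure : ∀ i : Bool, ∀ d : Nz p, u ((0, i), Sum.inl d) =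
          sh d.1 (u ((0, i), Sum.inl (nneg d))) := by
        intro i d
        have h3 := hc ((0, i), Sum.inl d)
        simp only [iota] at h3
        rw [← h3]
        have h4 := hinv d.1 0 i (Sum.inl (nneg d))
        rw [zero_add] at h4 ⊢
        exact h4
      obtain ⟨y1, f1, ν1, hf1, hu1⟩ := structure_thm hp2 (fun j => u ((0, true), j))
        (hb (0, true)) (hpure true)
      obtain ⟨y0, f0, ν0, hf0, hu0⟩ := structure_thm hp2 (fun j => u ((0, false), j))
        (hb (0, false)) (hpure false)
      have hmix : ∀ o, u ((0, false), Sum.inr o) = sh (α o) (u ((0, true), Sum.inr o)) := by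
        intro o
        have h3 := hc ((0, false), Sum.inr o)
        simp only [iota] at h3
        rw [← h3]
        have h4 := hinv (α o) 0 true (Sum.inr o)
        rw [zero_add] at h4 ⊢
        exact h4
      have hmix2 : ∀ o, sh y0 (rho p B (Sum.inr (ν0 o))) =
          sh (α o) (sh y1 (rho p B (Sum.inr (ν1 o)))) := by
        intro o
        have h3 := hmix o
        have h4 := hu0 (Sum.inr o)
        have h5 := hu1 (Sum.inr o)
        simp only [Equiv.sumCongr_apply, Sum.map_inr] at h4 h5
        rw [h4, h5] at h3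
        exact h3
      have hν : ν0 = ν1 := by
        ext o : 1
        have h3 := hmix2 o
        rcases h4 : ν0 o with _ | b <;> rcases h5 : ν1 o with _ | b' <;>
          simp [h4, h5] at h3 ⊢
        exact h3
      have hy : y0 = y1 + α (ν1.symm none) := by
        have h3 := hmix2 (ν1.symm none)
        rw [hν, Equiv.apply_symm_apply] at h3
        simpa using h3
      refine ⟨(y1, ν1, f0, f1), ?_, ?_⟩
      · simp only [Finset.mem_product, Finset.mem_univ, Finset.mem_filter, true_and]
        exact ⟨hf0, hf1⟩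
      · funext s
        obtain ⟨⟨x, i⟩, j⟩ := s
        have h3 := hinv x 0 i j
        rw [zero_add] at h3
        rw [h3]
        cases i
        · have h4 := hu0 j
          rw [h4, ← sh_add]
          simp only [std]
          rw [hν, hy, add_comm x]
          simp
        · have h4 := hu1 j
          rw [h4, ← sh_add]
          simp only [std]
          rw [add_comm x]
          simp
    · rintro ⟨y, ν, f0, f1⟩ ht
      simp only [Finset.mem_product, Finset.mem_univ, Finset.mem_filter, true_and] at ht
      rw [wt_std hp2]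
      · simp
      · intro i
        cases i
        · exact ht.1
        · exact ht.2
  rw [h2, Finset.sum_product]
  simp only [Finset.sum_const, Finset.card_univ, ZMod.card]
  rw [Finset.sum_product]
  simp only [Finset.sum_const, Finset.card_univ, Fintype.card_perm, Fintype.card_option]
  rw [Finset.sum_product]
  simp only [← Finset.mul_sum, ← Finset.sum_mul]
  unfold TT
  rw [nsmul_eq_mul, nsmul_eq_mul]
  ring

end Pool.Agent.H604R2.LEC2
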