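import Pool.Agent.H604R2.LEC2.Inv

/-!
# Orbits, and the signed number of colourings modulo `p ^ 2`
-/

set_option autoImplicit false
set_option linter.unusedSectionVars false

namespace Pool.Agent.H604R2.LEC2

open Finset Pool.Agent.H604R2.LEC

open Classical in
/-- The sum of an invariant function over the free orbits is divisible by the group order. -/
theorem dvd_sum_free {P X : Type} [AddGroup P] [Fintype P] [Fintype X]
    (act : P → X → X) (h0 : ∀ x, act 0 x = x) (hadd : ∀ g h x, act (g + h) x = act g (act h x))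
    (w : X → ℤ) (hw : ∀ g x, w (act g x) = w x) (free : X → Prop) [DecidablePred free]
    (hf : ∀ x, free x ↔ ∀ g, act g x = x → g = 0) :
    (Fintype.card P : ℤ) ∣ ∑ x ∈ univ.filter (fun x => free x), w x := by
  let S : Setoid X :=
    { r := fun x y => ∃ g, act g x = y
      iseqv := {
        refl := fun x => ⟨0, h0 x⟩
        symm := by
          rintro x y ⟨g, rfl⟩
          exact ⟨-g, by rw [← hadd, neg_add_cancel, h0]⟩
        trans := by
          rintro x y z ⟨g, rfl⟩ ⟨h, rfl⟩
          exact ⟨h + g, hadd h g x⟩ } }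
  have hmk : ∀ x y : X, Quotient.mk S x = Quotient.mk S y ↔ ∃ g, act g x = y := by
    intro x y
    exact Quotient.eq (r := S)
  let _ : Fintype (Quotient S) := Fintype.ofFinite _
  rw [← Finset.sum_fiberwise (s := univ.filter (fun x => free x))
    (g := fun x => Quotient.mk S x)]
  apply Finset.dvd_sum
  intro q _
  by_cases hemp : ((univ.filter (fun x => free x)).filter
      (fun x => Quotient.mk S x = q)) = ∅
  · rw [hemp, Finset.sum_empty]
    exact dvd_zero _
  · obtain ⟨x0, hx0⟩ := Finset.nonempty_iff_ne_empty.2 hemp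
    rw [Finset.mem_filter, Finset.mem_filter] at hx0
    obtain ⟨⟨-, hfree⟩, rfl⟩ := hx0
    rw [hf] at hfree
    have h1 : ((univ.filter (fun x => free x)).filter
        (fun x => Quotient.mk S x = Quotient.mk S x0)) = univ.image (fun g => act g x0) := by
      ext x
      rw [Finset.mem_filter, Finset.mem_filter, Finset.mem_image, hf]
      constructor
      · rintro ⟨-, h⟩
        obtain ⟨g, hg⟩ := (hmk _ _).1 h.symm
        exact ⟨g, Finset.mem_univ _, hg⟩
      · rintro ⟨g, -, rfl⟩
        refine ⟨⟨Finset.mem_univ _, ?_⟩, ?_⟩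
        · intro k hk
          have h2 := congrArg (act (-g)) hk
          rw [← hadd, ← hadd, ← hadd, neg_add_cancel, h0] at h2
          have h3 := hfree _ h2
          have h4 : k = g + (-g + k + g) + -g := by
            simp only [add_assoc, add_neg_cancel, add_zero, add_neg_cancel_left]
          rw [h4, h3, add_zero, add_neg_cancel]
        · exact ((hmk _ _).2 ⟨g, rfl⟩).symm
    rw [h1, Finset.sum_image]
    · rw [Finset.sum_congr rfl (fun g _ => hw g x0), Finset.sum_const, Finset.card_univ,
        nsmul_eq_mul]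
      exact dvd_mul_right _ _
    · intro g _ h _ hgh
      simp only at hgh
      have h2 := congrArg (act (-h)) hgh
      rw [← hadd, ← hadd, neg_add_cancel, h0] at h2
      have h3 := hfree _ h2
      rw [neg_add_eq_zero] at h3
      exact h3.symm

variable {p : ℕ} [Fact p.Prime] {B : Type} [Fintype B] [DecidableEq B]

/-- scaling of the colours -/
def kap (s : ZMod p) (hs : s ≠ 0) : Equiv.Perm (Ks p B) :=
  Equiv.sumCongr (Equiv.mulLeft₀ s hs) (Equiv.refl B)

@[simp] theorem kap_inl (s : ZMod p) (hs : s ≠ 0) (x : ZMod p) :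
    kap (B := B) s hs (Sum.inl x) = Sum.inl (s * x) := rfl

@[simp] theorem kap_inr (s : ZMod p) (hs : s ≠ 0) (b : B) :
    kap (B := B) s hs (Sum.inr b) = Sum.inr b := rfl

theorem kap_sh (s : ZMod p) (hs : s ≠ 0) (y : ZMod p) (k : Ks p B) :
    kap s hs (sh y k) = sh (y * s) (kap s hs k) := by
  rcases k with x | b
  · simp only [sh_inl, kap_inl]
    congr 1
    ring
  · simp

theorem two_ne (hp2 : p ≠ 2) : (2 : ZMod p) ≠ 0 := by
  intro h3
  have h4 : ((2 : ℕ) : ZMod p) = 0 := by exact_mod_cast h3
  rw [ZMod.natCast_eq_zero_iff] at h4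
  exact hp2 ((Nat.prime_dvd_prime_iff_eq (Fact.out : p.Prime) Nat.prime_two).1 h4)

/-- equivariance under the diagonal translation with speed `s` -/
def InvS (s : ZMod p) (u : Us p B) : Prop :=
  ∀ (y x : ZMod p) (i : Bool) (j : Cs p B), u ((x + y, i), j) = sh (y * s) (u ((x, i), j))

theorem invS_kap (s : ZMod p) (hs : s ≠ 0) (u : Us p B) :
    InvS s (fun t => kap s hs (u t)) ↔ Inv1 u := by
  unfold InvS Inv1
  constructor
  · intro h y x i j
    have h1 := h y x i j
    rw [← kap_sh] at h1
    exact (kap s hs).injective h1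
  · intro h y x i j
    simp only
    rw [h y x i j, kap_sh]

theorem wt_kap (α : Option B → ZMod p) (s : ZMod p) (hs : s ≠ 0) (u : Us p B) :
    wt α (fun t => kap s hs (u t)) = wt α u := by
  have := wt_comp α (Equiv.refl _) (fun _ => Equiv.refl _) (kap s hs) (by
    intro v j
    rfl) (by simp) u
  simpa using this

open Classical in
theorem sum_invS (α : Option B → ZMod p) (s : ZMod p) (hs : s ≠ 0) :
    ∑ u ∈ univ.filter (fun u : Us p B => InvS s u), wt α u =
      ∑ u ∈ univ.filter (fun u : Us p B => Inv1 u), wt α u := by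
  symm
  refine Finset.sum_bij' (fun u _ => fun t => kap s hs (u t))
    (fun u _ => fun t => (kap s hs).symm (u t)) ?_ ?_ ?_ ?_ ?_
  · intro u hu
    rw [Finset.mem_filter] at hu ⊢
    exact ⟨Finset.mem_univ _, (invS_kap s hs u).2 hu.2⟩
  · intro u hu
    rw [Finset.mem_filter] at hu ⊢
    refine ⟨Finset.mem_univ _, ?_⟩
    rw [← invS_kap s hs]
    simpa using hu.2
  · intro u _
    simp
  · intro u _
    simp
  · intro u _
    exact (wt_kap α s hs u).symm

/-- An element of the support takes the colour `inl 0` at every vertex. -/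
theorem exists_zero {α : Option B → ZMod p} {u : Us p B} (h : wt α u ≠ 0) (v : Vx p) :
    ∃ j, u (v, j) = Sum.inl 0 := (bij_of_wt h v).2 (Sum.inl 0)

/-- The translations acting on functions. -/
def act1 (g : ZMod p × ZMod p) (u : Us p B) : Us p B :=
  fun σ => sh g.2 (u ((σ.1.1 - g.1, σ.1.2), σ.2))

theorem wt_act1 (α : Option B → ZMod p) (g : ZMod p × ZMod p) (u : Us p B) :
    wt α (act1 g u) = wt α u := by
  exact wt_comp α (Equiv.prodCongr (Equiv.subRight g.1) (Equiv.refl _)) (fun _ => Equiv.refl _)
    (sh g.2) (by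
      rintro ⟨x, i⟩ (d | o)
      · simp only [iota]
        simp [sub_add_eq_add_sub]
      · cases i
        · simp only [iota]
          simp [sub_add_eq_add_sub]
        · simp only [iota]
          simp [sub_right_comm]) (by simp) u

theorem act1_iter (g : ZMod p × ZMod p) (u : Us p B) (h : act1 g u = u) (n : ℕ) (x : ZMod p)
    (i : Bool) (j : Cs p B) : u ((x + n * g.1, i), j) = sh ((n : ZMod p) * g.2) (u ((x, i), j)) := by
  induction n with
  | zero => simp [sh_zero]
  | succ n ih =>
    have h1 := congrFun h ((x + (n + 1 : ℕ) * g.1, i), j)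
    simp only [act1] at h1
    rw [← h1]
    have h2 : x + ((n + 1 : ℕ) : ZMod p) * g.1 - g.1 = x + n * g.1 := by
      push_cast
      ring
    rw [h2, ih, ← sh_add]
    congr 2
    push_cast
    ring

theorem not_invS_zero (hp2 : p ≠ 2) {α : Option B → ZMod p} {u : Us p B} (h : wt α u ≠ 0) :
    ¬ InvS 0 u := by
  intro hi
  have hc := comp_of_wt h
  have h1 := hc ((0, false), Sum.inl ⟨1, one_ne_zero⟩)
  simp only [iota] at h1
  rw [hi 1 0 false _, mul_zero, sh_zero] at h1
  have h2 := (bij_of_wt h (0, false)).1 h1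
  have h3 := Subtype.ext_iff.1 (Sum.inl.inj h2)
  simp only [nneg] at h3
  apply two_ne (p := p) hp2
  linear_combination -h3

theorem invS_unique {α : Option B → ZMod p} {u : Us p B} (h : wt α u ≠ 0) {s s' : ZMod p}
    (h1 : InvS s u) (h2 : InvS s' u) : s = s' := by
  obtain ⟨j, hj⟩ := exists_zero h (0, false)
  have h3 := h1 1 0 false j
  have h4 := h2 1 0 false j
  rw [h3, hj] at h4
  simpa using h4

/-- free orbits -/
def Free1 (u : Us p B) : Prop := ∀ g : ZMod p × ZMod p, act1 g u = u → g = 0

theorem nonfree_iff (hp2 : p ≠ 2) {α : Option B → ZMod p} {u : Us p B} (h : wt α u ≠ 0) :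
    ¬ Free1 u ↔ ∃ s : ZMod p, s ≠ 0 ∧ InvS s u := by
  constructor
  · intro hn
    unfold Free1 at hn
    push Not at hn
    obtain ⟨g, hg, hg0⟩ := hn
    have ht : g.1 ≠ 0 := by
      intro ht
      apply hg0
      obtain ⟨j, hj⟩ := exists_zero h (0, false)
      have h1 := congrFun hg ((0, false), j)
      simp only [act1, ht, sub_zero] at h1
      rw [hj] at h1
      have h2 : g.2 = 0 := by simpa using h1
      exact Prod.ext ht h2
    have hi : InvS (g.2 / g.1) u := by
      intro y x i j
      have h1 := act1_iter g u hg (y / g.1).val x i j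
      rw [ZMod.natCast_zmod_val] at h1
      rw [div_mul_cancel₀ _ ht] at h1
      rw [h1]
      congr 2
      ring
    refine ⟨g.2 / g.1, ?_, hi⟩
    intro h0
    rw [h0] at hi
    exact not_invS_zero hp2 h hi
  · rintro ⟨s, hs, hi⟩ hn
    have h1 : act1 (1, s) u = u := by
      funext σ
      obtain ⟨⟨x, i⟩, j⟩ := σ
      simp only [act1]
      have h2 := hi 1 (x - 1) i j
      rw [sub_add_cancel, one_mul] at h2
      exact h2.symm
    have h2 := hn _ h1
    exact one_ne_zero (Prod.ext_iff.1 h2).1

/-- The signed number of colourings modulo `p ^ 2`. -/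
theorem FF_mod (hp2 : p ≠ 2) (α : Option B → ZMod p) :
    ((p : ℤ) ^ 2) ∣ FF (rho p B) (iota α) -
      ((p : ℤ) - 1) * ((p : ℤ) * ((Fintype.card B + 1).factorial : ℤ) * TT p ^ 2) := by
  classical
  have h1 := dvd_sum_free (P := ZMod p × ZMod p) (X := Us p B) act1
    (by
      intro u
      funext σ
      simp [act1, sh_zero])
    (by
      intro g h u
      funext σ
      simp only [act1, Prod.fst_add, Prod.snd_add]
      rw [add_comm g.2, sh_add, sub_sub])
    (wt α) (wt_act1 α) Free1 (fun _ => Iff.rfl)
  rw [Fintype.card_prod, ZMod.card] at h1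
  have h2 : FF (rho p B) (iota α) =
      ∑ x ∈ univ.filter (fun x : Us p B => Free1 x), wt α x +
      ∑ x ∈ univ.filter (fun x : Us p B => ¬ Free1 x), wt α x := by
    rw [FF_eq, Finset.sum_filter_add_sum_filter_not]
  have h3 : ∑ x ∈ univ.filter (fun x : Us p B => ¬ Free1 x), wt α x =
      ∑ s ∈ (univ : Finset (ZMod p)).erase 0,
        ∑ u ∈ univ.filter (fun u : Us p B => InvS s u), wt α u := by
    simp_rw [Finset.sum_filter]
    rw [Finset.sum_comm]
    apply Finset.sum_congr rfl
    intro u _
    by_cases hw : wt α u = 0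
    · simp [hw]
    · by_cases hn : ¬ Free1 u
      · rw [if_pos hn]
        obtain ⟨s, hs, hi⟩ := (nonfree_iff hp2 hw).1 hn
        rw [Finset.sum_eq_single s]
        · rw [if_pos hi]
        · intro s' _ hs'
          rw [if_neg]
          intro h
          exact hs' (invS_unique hw h hi)
        · intro h
          exact absurd (Finset.mem_erase.2 ⟨hs, Finset.mem_univ _⟩) h
      · rw [if_neg hn]
        symm
        apply Finset.sum_eq_zero
        intro s hs
        rw [if_neg]
        intro hi
        exact hn ((nonfree_iff hp2 hw).2 ⟨s, Finset.ne_of_mem_erase hs, hi⟩)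
  have h4 : ∑ s ∈ (univ : Finset (ZMod p)).erase 0,
        ∑ u ∈ univ.filter (fun u : Us p B => InvS s u), wt α u =
      ((p : ℤ) - 1) * ((p : ℤ) * ((Fintype.card B + 1).factorial : ℤ) * TT p ^ 2) := by
    rw [Finset.sum_congr rfl (fun s hs => sum_invS α s (Finset.ne_of_mem_erase hs)),
      Finset.sum_const, Finset.card_erase_of_mem (Finset.mem_univ _), Finset.card_univ, ZMod.card,
      nsmul_eq_mul, sum_inv1 hp2]
    have : ((p - 1 : ℕ) : ℤ) = (p : ℤ) - 1 := by
      have := (Fact.out : p.Prime).one_le
      push_cast [this]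
      rfl
    rw [this]
  rw [h2, h3, h4, add_sub_cancel_right]
  have h5 : ((p * p : ℕ) : ℤ) = (p : ℤ) ^ 2 := by push_cast; ring
  rw [h5] at h1
  exact h1

end Pool.Agent.H604R2.LEC2
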