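import Pool.Agent.H604R2.LEC2.AT

/-!
# The Alon-Tarsi method for regular graphs given by slots
-/

set_option autoImplicit false
set_option linter.unusedSectionVars false

namespace Pool.Agent.H604R2.LEC2

open Finset Pool.Agent.H604R2.LEC

theorem eps_perm {k : ℕ} (σ : Equiv.Perm (Fin k)) : eps σ = (Equiv.Perm.sign σ : ℤ) := by
  unfold eps
  have h0 := Matrix.det_permutation (R := ℤ) σ
  simp only [Int.cast_id] at h0
  rw [← h0, ← Matrix.det_transpose]
  congr 1
  ext a j
  unfold Equiv.Perm.permMatrix
  rw [Matrix.transpose_apply, Matrix.of_apply, PEquiv.toMatrix_apply]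
  simp only [Equiv.toPEquiv_apply, Option.mem_some_iff]
  by_cases h : j = σ a
  · rw [if_pos h, if_pos h.symm]
  · rw [if_neg h, if_neg (fun h2 => h h2.symm)]

section slots

variable {V C K : Type} [Fintype V] [DecidableEq V] [Fintype C] [DecidableEq C] [Fintype K]
  [DecidableEq K]

open Classical in
/-- The sign of a map relative to a reference bijection (zero if it is not bijective). -/
noncomputable def sgr (ρ : C ≃ K) (f : C → K) : ℤ :=
  if h : Function.Bijective f then
    (Equiv.Perm.sign ((Equiv.ofBijective f h).trans ρ.symm) : ℤ) else 0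

theorem sgr_equiv (ρ : C ≃ K) (f : C ≃ K) : sgr ρ f = (Equiv.Perm.sign (f.trans ρ.symm) : ℤ) := by
  unfold sgr
  rw [dif_pos f.bijective]
  congr 3
  ext x
  simp

theorem sgr_of_not (ρ : C ≃ K) (f : C → K) (h : ¬ Function.Bijective f) : sgr ρ f = 0 := by
  unfold sgr
  rw [dif_neg h]

/-- The signed number of proper colourings. -/
noncomputable def FF (ρ : C ≃ K) (ι : V × C → V × C) : ℤ :=
  ∑ u ∈ univ.filter (fun u : V × C → K => ∀ s, u (ι s) = u s), ∏ v, sgr ρ (fun j => u (v, j))

/-- The setoid of an involution. -/
def invSetoid (ι : V × C → V × C) (hι : ∀ s, ι (ι s) = s) : Setoid (V × C) where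
  r s t := s = t ∨ ι s = t
  iseqv := {
    refl := fun s => Or.inl rfl
    symm := by
      rintro s t (h | h)
      · exact Or.inl h.symm
      · right
        rw [← h, hι]
    trans := by
      rintro s t r (h | h) (h2 | h2)
      · exact Or.inl (h.trans h2)
      · subst h
        exact Or.inr h2
      · subst h2
        exact Or.inr h
      · left
        rw [← h2, ← h, hι] }

theorem at_slots (ρ : C ≃ K) (ι : V × C → V × C) (hι : ∀ s, ι (ι s) = s) (hι2 : ∀ s, ι s ≠ s)
    (hC : 0 < Fintype.card C) (hF : FF ρ ι ≠ 0) (L : V × C → Finset ℕ)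
    (hL : ∀ s, L (ι s) = L s) (hL2 : ∀ s, Fintype.card C ≤ (L s).card) :
    ∃ f : V × C → ℕ, (∀ s, f (ι s) = f s) ∧ (∀ s, f s ∈ L s) ∧
      ∀ v, Function.Injective (fun j => f (v, j)) := by
  classical
  let S := invSetoid ι hι
  let E := Quotient S
  let _ : Fintype E := Fintype.ofFinite E
  obtain ⟨e⟩ : Nonempty (C ≃ Fin (Fintype.card C)) := ⟨Fintype.equivFin C⟩
  let inc : V → Fin (Fintype.card C) → E := fun v j => Quotient.mk S (v, e.symm j)
  have hmk : ∀ s t : V × C, Quotient.mk S s = Quotient.mk S t ↔ s = t ∨ ι s = t := by
    intro s t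
    exact Quotient.eq (r := S)
  have h2 : TwoInc inc := by
    intro q
    obtain ⟨s0, rfl⟩ := Quotient.exists_rep q
    have h3 : (univ.filter fun s : V × Fin (Fintype.card C) => inc s.1 s.2 = Quotient.mk S s0) =
        {(s0.1, e s0.2), ((ι s0).1, e (ι s0).2)} := by
      ext ⟨v, j⟩
      rw [Finset.mem_filter, Finset.mem_insert, Finset.mem_singleton]
      constructor
      · rintro ⟨-, h⟩
        rcases (hmk _ _).1 h with h | h
        · left
          rw [← h]
          simp
        · right
          rw [← h, hι]
          simp
      · intro h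
        refine ⟨Finset.mem_univ _, ?_⟩
        refine (hmk _ _).2 ?_
        rcases h with h | h
        · left
          rw [Prod.ext_iff] at h
          simp only at h
          rw [h.1, h.2]
          simp
        · right
          rw [Prod.ext_iff] at h
          simp only at h
          rw [h.1, h.2]
          simp [hι]
    rw [h3, Finset.card_pair]
    intro h
    rw [Prod.ext_iff] at h
    apply hι2 s0
    exact Prod.ext h.1.symm (e.injective h.2.symm)
  have hF' : ∑ c : E → Fin (Fintype.card C), ∏ v, eps (fun j => c (inc v j)) = FF ρ ι := by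
    unfold FF
    refine Finset.sum_bij' (fun c _ => fun s => ρ (e.symm (c (Quotient.mk S s))))
      (fun u _ => fun q => e (ρ.symm (u q.out))) ?_ ?_ ?_ ?_ ?_
    · intro c _
      rw [Finset.mem_filter]
      refine ⟨Finset.mem_univ _, ?_⟩
      intro s
      have : Quotient.mk S (ι s) = Quotient.mk S s := (hmk _ _).2 (Or.inr (hι s))
      simp only [this]
    · intro u _
      exact Finset.mem_univ _
    · intro c _
      funext q
      simp
    · intro u hu
      have hu2 := (Finset.mem_filter.1 hu).2
      funext s
      simp only [Equiv.symm_apply_apply, Equiv.apply_symm_apply]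
      have h3 : Quotient.mk S (Quotient.mk S s).out = Quotient.mk S s := Quotient.out_eq _
      rcases (hmk _ _).1 h3 with h | h
      · rw [h]
      · exact (hu2 _).symm.trans (congrArg u h)
    · intro c _
      apply Finset.prod_congr rfl
      intro v _
      by_cases hb : Function.Bijective (fun j => c (inc v j))
      · have hb2 : Function.Bijective (fun j : C => ρ (e.symm (c (Quotient.mk S (v, j))))) := by
          have h4 : (fun j : C => ρ (e.symm (c (Quotient.mk S (v, j))))) =
              ρ ∘ e.symm ∘ (fun j => c (inc v j)) ∘ e := by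
            funext j
            simp [inc]
          rw [h4]
          exact ρ.bijective.comp (e.symm.bijective.comp (hb.comp e.bijective))
        have h5 : (fun j => c (inc v j)) = ⇑(Equiv.ofBijective _ hb) := rfl
        rw [h5, eps_perm]
        unfold sgr
        rw [dif_pos hb2]
        congr 1
        rw [← Equiv.Perm.sign_permCongr e]
        congr 1
        ext j
        simp [Equiv.permCongr_apply, inc]
      · have hb2 : ¬ Function.Bijective (fun j : C => ρ (e.symm (c (Quotient.mk S (v, j))))) := by
          intro h
          apply hb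
          have h4 : (fun j => c (inc v j)) = e ∘ ρ.symm ∘
              (fun j : C => ρ (e.symm (c (Quotient.mk S (v, j))))) ∘ e.symm := by
            funext j
            simp [inc]
          rw [h4]
          exact e.bijective.comp (ρ.symm.bijective.comp (h.comp e.symm.bijective))
        rw [sgr_of_not _ _ hb2]
        apply eps_eq_zero
        intro h
        exact hb (Finite.injective_iff_bijective.1 h)
  obtain ⟨f, hf1, hf2⟩ := at_fin (inc := inc) hC h2 (by rw [hF']; exact hF)
    (fun q => L q.out) (fun q => hL2 _)
  refine ⟨fun s => f (Quotient.mk S s), ?_, ?_, ?_⟩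
  · intro s
    have : Quotient.mk S (ι s) = Quotient.mk S s := (hmk _ _).2 (Or.inr (hι s))
    simp only [this]
  · intro s
    have h1 := hf1 (Quotient.mk S s)
    have h3 : Quotient.mk S (Quotient.mk S s).out = Quotient.mk S s := Quotient.out_eq _
    rcases (hmk _ _).1 h3 with h | h
    · simp only [h] at h1
      exact h1
    · have h4 : L (Quotient.mk S s).out = L s := (hL _).symm.trans (congrArg L h)
      simp only [h4] at h1
      exact h1
  · intro v i j hij
    have h3 := hf2 v (a₁ := e i) (a₂ := e j) (by
      simp only [inc, Equiv.symm_apply_apply]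
      exact hij)
    exact e.injective h3

end slots

end Pool.Agent.H604R2.LEC2
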